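import Pool.Agent.Work.MP_7107b3_al.SE.Stmts

/-!
# MP_7107b3_al, block SE: the general form, both factors arbitrary
-/

set_option autoImplicit false

namespace Pool.Agent.Work.MP_7107b3_al.SE

open FreeGroup

/-- The relators `x_i ^ p_i`. -/
def cycRels {k : ℕ} (p : Fin k → ℕ) : Set (FreeGroup (Fin k)) := {r | ∃ i, r = of i ^ p i}

/-- The free product of the cyclic groups of the orders `p_i`. -/
abbrev Cyc {k : ℕ} (p : Fin k → ℕ) : Type := PresentedGroup (cycRels p)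

/-- `P = x_1 .. x_k`. -/
def prd {k : ℕ} (p : Fin k → ℕ) : Cyc p := (List.ofFn fun i : Fin k => (PresentedGroup.of i : Cyc p)).prod

/-- [G1] first case: the other factor goes to `1`. -/
def StG1 : Prop := ∀ (C : Type) [Group C] (K : Bool → Type) [∀ b, Group (K b)] (φ : ∀ b, C →* K b) (k : ℕ)
  (p : Fin k → ℕ) (e : K true →* Cyc p), (∀ i, 2 ≤ p i) → Function.Surjective e →
  (∀ c, ∃ j : ℤ, e (φ true c) = prd p ^ j) → (2 : ℚ) ≤ ∑ i, (1 - 1 / (p i : ℚ)) → VirtZ (Monoid.PushoutI φ)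

/-- [G2] second case. -/
def StG2 : Prop := ∀ (C : Type) [Group C] (K : Bool → Type) [∀ b, Group (K b)] (φ : ∀ b, C →* K b) (k : ℕ)
  (p : Fin k → ℕ) (e : K true →* Cyc p) (N : ℕ) (m : ℤ) (ψ : K false →* Multiplicative (ZMod N)), 2 ≤ k →
  (∀ i, 2 ≤ p i) → 1 ≤ N → ¬ (N : ℤ) ∣ m → Function.Surjective e → Function.Surjective ψ →
  (∀ c, ∃ j : ℤ, e (φ true c) = prd p ^ j ∧ ψ (φ false c) = Multiplicative.ofAdd ((m * j : ℤ) : ZMod N)) →
  (2 : ℚ) ≤ ∑ i, (1 - 1 / (p i : ℚ)) + (1 - 1 / (N : ℚ)) → VirtZ (Monoid.PushoutI φ)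

namespace G12

theorem push {C : Type} [Group C] {K : Bool → Type} [∀ b, Group (K b)] (φ : ∀ b, C →* K b) {Γ : Type} [Group Γ]
    (α : K true →* Γ) (β : K false →* Γ) (h : ∀ c, α (φ true c) = β (φ false c)) :
    ∃ Φ : Monoid.PushoutI φ →* Γ, (∀ a, Φ (Monoid.PushoutI.of true a) = α a) ∧
      ∀ b, Φ (Monoid.PushoutI.of false b) = β b := by
  let f : ∀ b, K b →* Γ := fun b => match b with
    | true => α
    | false => β
  have hf : ∀ b, (f b).comp (φ b) = β.comp (φ false) := by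
    intro b
    cases b
    · rfl
    · exact MonoidHom.ext h
  exact ⟨Monoid.PushoutI.lift f (β.comp (φ false)) hf, fun a => Monoid.PushoutI.lift_of f _ hf (i := true) a,
    fun b => Monoid.PushoutI.lift_of f _ hf (i := false) b⟩

/-- A homomorphism from the cyclic group of order `N`. -/
theorem cyc {Γ : Type} [Group Γ] (N : ℕ) (t : Γ) (ht : t ^ N = 1) :
    ∃ γ : Multiplicative (ZMod N) →* Γ, ∀ j : ℤ, γ (Multiplicative.ofAdd (j : ZMod N)) = t ^ j := by
  let g : ℤ →+ Additive Γ := zmultiplesHom (Additive Γ) (Additive.ofMul t)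
  have hg : g (N : ℤ) = 0 := by
    show ((N : ℤ) • Additive.ofMul t : Additive Γ) = 0
    rw [natCast_zsmul, ← ofMul_pow, ht, ofMul_one]
  let γ' : ZMod N →+ Additive Γ := ZMod.lift N ⟨g, hg⟩
  refine ⟨AddMonoidHom.toMultiplicativeLeft γ', fun j => ?_⟩
  have h1 : γ' (j : ZMod N) = g j := ZMod.lift_coe N ⟨g, hg⟩ j
  have h2 : g j = Additive.ofMul (t ^ j) := by
    show (j • Additive.ofMul t : Additive Γ) = _
    rw [ofMul_zpow]
  show Additive.toMul (γ' (j : ZMod N)) = t ^ j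
  rw [h1, h2]
  rfl

/-- A homomorphism from the free product of cyclic groups. -/
theorem fromCyc {k : ℕ} (p : Fin k → ℕ) {Γ : Type} [Group Γ] (y : Fin k → Γ) (hy : ∀ i, y i ^ p i = 1) :
    ∃ θ : Cyc p →* Γ, (∀ i, θ (PresentedGroup.of i) = y i) ∧ θ (prd p) = (List.ofFn y).prod := by
  have h : ∀ r ∈ cycRels p, FreeGroup.lift y r = 1 := by
    rintro r ⟨i, rfl⟩
    rw [map_pow, FreeGroup.lift_apply_of, hy]
  refine ⟨PresentedGroup.toGroup h, fun i => PresentedGroup.toGroup.of h, ?_⟩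
  rw [prd, map_list_prod, List.map_ofFn]
  congr 2
  funext i
  exact PresentedGroup.toGroup.of h

theorem orb_rel {k : ℕ} (p : Fin k → ℕ) (n : ℕ) (m : ℤ) (i : Fin k) :
    (PresentedGroup.of (some i) : Orb p n m) ^ p i = 1 := by
  have h : (PresentedGroup.mk (orbRels p n m) (of (some i) ^ p i) : Orb p n m) = 1 :=
    PresentedGroup.one_of_mem (Or.inl ⟨i, rfl⟩)
  rw [map_pow] at h
  exact h

theorem orb_t {k : ℕ} (p : Fin k → ℕ) (n : ℕ) (m : ℤ) :
    (PresentedGroup.of none : Orb p n m) ^ n = 1 := by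
  have h : (PresentedGroup.mk (orbRels p n m) (of none ^ n) : Orb p n m) = 1 :=
    PresentedGroup.one_of_mem (Or.inr (Or.inl rfl))
  rw [map_pow] at h
  exact h

theorem orb_prd {k : ℕ} (p : Fin k → ℕ) (n : ℕ) (m : ℤ) :
    (List.ofFn fun i : Fin k => (PresentedGroup.of (some i) : Orb p n m)).prod = PresentedGroup.of none ^ m := by
  have h : (PresentedGroup.mk (orbRels p n m)
      ((List.ofFn fun i : Fin k => (of (some i) : FreeGroup (Option (Fin k)))).prod * (of none ^ m)⁻¹) : Orb p n m) = 1 :=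
    PresentedGroup.one_of_mem (Or.inr (Or.inr rfl))
  rw [_root_.map_mul, _root_.map_inv, mul_inv_eq_one, map_list_prod, List.map_ofFn, map_zpow] at h
  exact h

theorem orb_surj {k : ℕ} (p : Fin k → ℕ) (n : ℕ) (m : ℤ) {G : Type} [Group G] (Φ : G →* Orb p n m)
    (h : ∀ o, ∃ g, Φ g = PresentedGroup.of o) : Function.Surjective Φ := by
  rw [← MonoidHom.range_eq_top, eq_top_iff, ← PresentedGroup.closure_range_of, Subgroup.closure_le]
  rintro _ ⟨o, rfl⟩
  obtain ⟨g, hg⟩ := h o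
  exact ⟨g, hg⟩

end G12

theorem se_G2 (hCO : StCO) (hEX : StEX) (hPB : StPB) : StG2 := by
  intro C _ K _ φ k p e N m ψ hk hp hN hNm he hψ hC hnum
  obtain ⟨θ, hθ, hθP⟩ := G12.fromCyc p (fun i => (PresentedGroup.of (some i) : Orb p N m)) (G12.orb_rel p N m)
  obtain ⟨γ, hγ⟩ := G12.cyc N (PresentedGroup.of none : Orb p N m) (G12.orb_t p N m)
  obtain ⟨Φ, hΦ1, hΦ2⟩ := G12.push φ (θ.comp e) (γ.comp ψ) (by
    intro c
    obtain ⟨j, h1, h2⟩ := hC c
    rw [MonoidHom.comp_apply, MonoidHom.comp_apply, h1, h2, hγ, map_zpow, hθP, G12.orb_prd, zpow_mul])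
  have hs : Function.Surjective Φ := by
    refine G12.orb_surj p N m Φ ?_
    rintro (_ | i)
    · obtain ⟨b, hb⟩ := hψ (Multiplicative.ofAdd ((1 : ℤ) : ZMod N))
      refine ⟨Monoid.PushoutI.of false b, ?_⟩
      rw [hΦ2, MonoidHom.comp_apply, hb, hγ, zpow_one]
    · obtain ⟨a, ha⟩ := he (PresentedGroup.of i)
      refine ⟨Monoid.PushoutI.of true a, ?_⟩
      rw [hΦ1, MonoidHom.comp_apply, ha, hθ]
  exact hPB _ _ Φ hs (hCO k p N m (fun i => le_trans (by norm_num) (hp i)) hN (hEX k p N m hk hp hN hNm) hnum)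

theorem se_G1 (hCO : StCO) (hEX : StEX) (hPB : StPB) : StG1 := by
  intro C _ K _ φ k p e hp he hC hnum
  -- `k` is at least three
  have hk : 3 ≤ k := by
    by_contra hlt
    have h1 : ∑ i, (1 - 1 / (p i : ℚ)) ≤ ∑ _i : Fin k, (1 : ℚ) :=
      Finset.sum_le_sum fun i _ => by
        have : (0 : ℚ) ≤ 1 / (p i : ℚ) := by positivity
        linarith
    have h2 : k = 0 ∨ k = 1 ∨ k = 2 := by omega
    rcases h2 with rfl | rfl | rfl
    · simp at hnum
      linarith
    · have h3 : (0 : ℚ) ≤ 1 / (p 0 : ℚ) := by positivity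
      rw [Fin.sum_univ_one] at hnum
      linarith
    · have h3 : (0 : ℚ) < 1 / (p 0 : ℚ) := by
        have : 0 < p 0 := by have := hp 0; omega
        positivity
      have h4 : (0 : ℚ) < 1 / (p 1 : ℚ) := by
        have : 0 < p 1 := by have := hp 1; omega
        positivity
      rw [Fin.sum_univ_two] at hnum
      linarith
  obtain ⟨k', rfl⟩ : ∃ k', k = k' + 1 := ⟨k - 1, by omega⟩
  set p' : Fin k' → ℕ := fun i => p i.castSucc with hp'
  set N := p (Fin.last k') with hN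
  let Γ := Orb p' N (-1)
  let y : Fin (k' + 1) → Γ := Fin.snoc (α := fun _ => Γ) (fun i => (PresentedGroup.of (some i) : Orb p' N (-1)))
    (PresentedGroup.of none : Orb p' N (-1))
  have hy1 : ∀ i : Fin k', y i.castSucc = (PresentedGroup.of (some i) : Orb p' N (-1)) := fun i =>
    Fin.snoc_castSucc (α := fun _ => Γ) _ _ i
  have hy2 : y (Fin.last k') = (PresentedGroup.of none : Orb p' N (-1)) :=
    Fin.snoc_last (α := fun _ => Γ) _ _
  obtain ⟨θ, hθ, hθP⟩ := G12.fromCyc p y (by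
    intro i
    refine Fin.lastCases ?_ (fun i => ?_) i
    · rw [hy2]
      exact G12.orb_t p' N (-1)
    · rw [hy1]
      exact G12.orb_rel p' N (-1) i)
  have hprod : (List.ofFn y).prod = 1 := by
    rw [List.ofFn_succ', List.concat_eq_append, List.prod_append, List.prod_singleton, hy2]
    have h1 : (List.ofFn fun i : Fin k' => y i.castSucc).prod = (PresentedGroup.of none : Orb p' N (-1)) ^ (-1 : ℤ) := by
      rw [← G12.orb_prd]
      congr 2
      funext i
      exact hy1 i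
    rw [h1, zpow_neg_one, inv_mul_cancel]
  obtain ⟨Φ, hΦ1, hΦ2⟩ := G12.push φ (θ.comp e) (1 : K false →* Γ) (by
    intro c
    obtain ⟨j, h1⟩ := hC c
    rw [MonoidHom.comp_apply, h1, map_zpow, hθP, hprod, one_zpow, MonoidHom.one_apply])
  have hs : Function.Surjective Φ := by
    refine G12.orb_surj p' N (-1) Φ ?_
    rintro (_ | i)
    · obtain ⟨a, ha⟩ := he (PresentedGroup.of (Fin.last k'))
      refine ⟨Monoid.PushoutI.of true a, ?_⟩
      rw [hΦ1, MonoidHom.comp_apply, ha, hθ, hy2]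
    · obtain ⟨a, ha⟩ := he (PresentedGroup.of i.castSucc)
      refine ⟨Monoid.PushoutI.of true a, ?_⟩
      rw [hΦ1, MonoidHom.comp_apply, ha, hθ, hy1]
  have hp2 : ∀ i, 2 ≤ p' i := fun i => hp _
  have hN2 : 2 ≤ N := hp _
  have hnum' : (2 : ℚ) ≤ ∑ i, (1 - 1 / (p' i : ℚ)) + (1 - 1 / (N : ℚ)) := by
    rw [Fin.sum_univ_castSucc] at hnum
    exact hnum
  have hdvd : ¬ (N : ℤ) ∣ (-1) := by
    intro h
    have := Int.le_of_dvd (by norm_num) ((Int.dvd_neg).1 h)
    omega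
  exact hPB _ _ Φ hs (hCO k' p' N (-1) (fun i => le_trans (by norm_num) (hp2 i)) (by omega)
    (hEX k' p' N (-1) (by omega) hp2 (by omega) hdvd) hnum')

end Pool.Agent.Work.MP_7107b3_al.SE
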