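import Pool.Agent.Work.MP_7107b3_al.SE.Stmts

set_option autoImplicit false

namespace Pool.Agent.Work.MP_7107b3_al.SE

open FreeGroup

namespace ISE_A1

/-- The target: the last generator becomes `t`. -/
abbrev Tg {k : ℕ} (p : Fin (k + 1) → ℕ) : Type :=
  Orb (fun i : Fin k => p i.castSucc) (p (Fin.last k)) (-1)

/-- The values of the generators `x_i`. -/
def xv {k : ℕ} (p : Fin (k + 1) → ℕ) : Fin (k + 1) → Tg p :=
  Fin.snoc (α := fun _ => Tg p) (fun i : Fin k => (PresentedGroup.of (some i) : Tg p))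
    (PresentedGroup.of none : Tg p)

/-- The values at the generators. -/
def gv {k : ℕ} (p : Fin (k + 1) → ℕ) : Option (Fin (k + 1)) → Tg p
  | none => 1
  | some i => xv p i

lemma xv_cast {k : ℕ} (p : Fin (k + 1) → ℕ) (i : Fin k) :
    xv p i.castSucc = (PresentedGroup.of (some i) : Tg p) := by
  unfold xv
  rw [Fin.snoc_castSucc]

lemma xv_last {k : ℕ} (p : Fin (k + 1) → ℕ) :
    xv p (Fin.last k) = (PresentedGroup.of none : Tg p) := by
  unfold xv
  rw [Fin.snoc_last]

lemma rel_x {k : ℕ} (p : Fin (k + 1) → ℕ) (i : Fin (k + 1)) : xv p i ^ p i = 1 := by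
  refine Fin.lastCases ?_ (fun j => ?_) i
  · rw [xv_last]
    have h : (PresentedGroup.mk (orbRels (fun i : Fin k => p i.castSucc) (p (Fin.last k)) (-1)))
        (of none ^ p (Fin.last k)) = 1 :=
      PresentedGroup.one_of_mem (Or.inr (Or.inl rfl))
    rw [map_pow] at h
    exact h
  · rw [xv_cast]
    have h : (PresentedGroup.mk (orbRels (fun i : Fin k => p i.castSucc) (p (Fin.last k)) (-1)))
        (of (some j) ^ p j.castSucc) = 1 :=
      PresentedGroup.one_of_mem (Or.inl ⟨j, rfl⟩)
    rw [map_pow] at h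
    exact h

lemma rel_prod {k : ℕ} (p : Fin (k + 1) → ℕ) :
    (List.ofFn fun i : Fin k => (PresentedGroup.of (some i) : Tg p)).prod *
      (PresentedGroup.of none : Tg p) = 1 := by
  have h : (PresentedGroup.mk (orbRels (fun i : Fin k => p i.castSucc) (p (Fin.last k)) (-1)))
      ((List.ofFn fun i : Fin k => (of (some i) : FreeGroup (Option (Fin k)))).prod *
        (of none ^ (-1 : ℤ))⁻¹) = 1 :=
    PresentedGroup.one_of_mem (Or.inr (Or.inr rfl))
  rw [_root_.map_mul, _root_.map_inv, map_zpow, map_list_prod, List.map_ofFn, zpow_neg, zpow_one,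
    inv_inv] at h
  exact h

lemma gv_rels {k : ℕ} (p : Fin (k + 1) → ℕ) (q : Fin (k + 1) → ℤ) :
    ∀ r ∈ seifRels p q, FreeGroup.lift (gv p) r = 1 := by
  rintro r (⟨i, rfl⟩ | ⟨i, rfl⟩)
  · simp only [_root_.map_mul, _root_.map_inv, FreeGroup.lift_apply_of, gv]
    group
  · simp only [_root_.map_mul, _root_.map_inv, map_pow, map_zpow, FreeGroup.lift_apply_of, gv]
    rw [rel_x]
    simp

/-- The map of the Seifert piece. -/
def sm {k : ℕ} (p : Fin (k + 1) → ℕ) (q : Fin (k + 1) → ℤ) : Seif p q →* Tg p :=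
  PresentedGroup.toGroup (gv_rels p q)

lemma sm_of {k : ℕ} (p : Fin (k + 1) → ℕ) (q : Fin (k + 1) → ℤ) (o : Option (Fin (k + 1))) :
    sm p q (PresentedGroup.of o) = gv p o :=
  PresentedGroup.toGroup.of (gv_rels p q)

lemma sm_fib {k : ℕ} (p : Fin (k + 1) → ℕ) (q : Fin (k + 1) → ℤ) :
    sm p q (fib p q) = 1 := sm_of p q none

lemma sm_sec {k : ℕ} (p : Fin (k + 1) → ℕ) (q : Fin (k + 1) → ℤ) :
    sm p q (sec p q) = 1 := by
  unfold sec
  rw [map_list_prod, List.map_ofFn]
  have h1 : (⇑(sm p q) ∘ fun i : Fin (k + 1) => (PresentedGroup.of (some i) : Seif p q)) =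
      fun i => xv p i := by
    funext i
    exact sm_of p q (some i)
  rw [h1, List.ofFn_succ', List.concat_eq_append, List.prod_append, List.prod_singleton, xv_last]
  have h2 : (fun i : Fin k => xv p i.castSucc) =
      fun i : Fin k => (PresentedGroup.of (some i) : Tg p) := by
    funext i
    exact xv_cast p i
  rw [h2]
  exact rel_prod p

theorem key {C : Type} [Group C] {K : Bool → Type} [∀ b, Group (K b)] (φ : ∀ b, C →* K b) {k : ℕ}
    (p : Fin (k + 1) → ℕ) (q : Fin (k + 1) → ℤ) (e : K true ≃* Seif p q) (u v : C)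
    (hC : Subgroup.closure {u, v} = ⊤) (hu : e (φ true u) = fib p q) (hv : e (φ true v) = sec p q) :
    ∃ π : Monoid.PushoutI φ →* Tg p, Function.Surjective π := by
  let g : ∀ b, K b →* Tg p := fun b => match b with
    | true => (sm p q).comp e.toMonoidHom
    | false => 1
  have hcomp : (g false).comp (φ false) = (g true).comp (φ true) := by
    apply MonoidHom.eq_of_eqOn_dense hC
    intro x hx
    rcases hx with rfl | hx
    · change (1 : Tg p) = sm p q (e (φ true x))
      rw [hu, sm_fib]
    · rw [Set.mem_singleton_iff] at hx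
      subst hx
      change (1 : Tg p) = sm p q (e (φ true x))
      rw [hv, sm_sec]
  let π : Monoid.PushoutI φ →* Tg p := Monoid.PushoutI.lift g ((g true).comp (φ true)) (by
    intro b
    cases b
    · exact hcomp
    · rfl)
  refine ⟨π, ?_⟩
  have hx : ∀ i : Fin (k + 1), xv p i ∈ π.range := by
    intro i
    refine ⟨Monoid.PushoutI.of true (e.symm (PresentedGroup.of (some i))), ?_⟩
    rw [Monoid.PushoutI.lift_of]
    change sm p q (e (e.symm (PresentedGroup.of (some i)))) = _
    rw [MulEquiv.apply_symm_apply, sm_of]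
    rfl
  rw [← MonoidHom.range_eq_top, eq_top_iff, ← PresentedGroup.closure_range_of, Subgroup.closure_le]
  rintro _ ⟨o, rfl⟩
  cases o with
  | none =>
    have h1 := hx (Fin.last k)
    rw [xv_last] at h1
    exact h1
  | some i =>
    have h1 := hx i.castSucc
    rw [xv_cast] at h1
    exact h1

end ISE_A1

theorem se_A1 (hCO : StCO) (hEX : StEX) (hPB : StPB) : StA1 := by
  intro C _ K _ φ k p q e u v hp hC hu hv hs
  have hk3 : 3 ≤ k := by
    by_contra hcon
    have hk : k ≤ 2 := by omega
    have h1 : ∑ i, (1 - 1 / (p i : ℚ)) < 2 := by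
      rcases Nat.eq_zero_or_pos k with h0 | h0
      · subst h0
        simp
      · have hne : (Finset.univ : Finset (Fin k)).Nonempty := ⟨⟨0, h0⟩, Finset.mem_univ _⟩
        have h2 : ∑ i : Fin k, (1 - 1 / (p i : ℚ)) < ∑ _i : Fin k, (1 : ℚ) := by
          apply Finset.sum_lt_sum_of_nonempty hne
          intro i _
          have h3 : (0 : ℚ) < (p i : ℚ) := by
            have := hp i
            have : 0 < p i := by omega
            exact_mod_cast this
          have h4 : (0 : ℚ) < 1 / (p i : ℚ) := by positivity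
          linarith
        have h5 : ∑ _i : Fin k, (1 : ℚ) = k := by simp
        have h6 : (k : ℚ) ≤ 2 := by exact_mod_cast hk
        linarith
    linarith
  obtain ⟨k', rfl⟩ : ∃ k', k = k' + 1 := ⟨k - 1, by omega⟩
  obtain ⟨π, hπ⟩ := ISE_A1.key φ p q e u v hC hu hv
  have hl := hp (Fin.last k')
  refine hPB _ _ π hπ (hCO k' _ _ _ (fun i => le_trans (by norm_num) (hp i.castSucc)) (by omega)
    (hEX k' _ _ _ (by omega) (fun i => hp i.castSucc) (by omega) ?_) ?_)
  · intro hd
    have h1 := Int.natAbs_dvd_natAbs.2 hd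
    rw [Int.natAbs_natCast] at h1
    have h2 := Nat.le_of_dvd (by norm_num) h1
    have h3 : (-1 : ℤ).natAbs = 1 := rfl
    omega
  · rw [Fin.sum_univ_castSucc] at hs
    exact hs

end Pool.Agent.Work.MP_7107b3_al.SE
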