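import Pool.Agent.Work.MP_7107b3_al.SE.Stmts

set_option autoImplicit false

namespace Pool.Agent.Work.MP_7107b3_al.SE

open FreeGroup

namespace ISE_A2

/-- The values at the generators. -/
def gv {k : ℕ} (p : Fin k → ℕ) (n : ℕ) (m : ℤ) : Option (Fin k) → Orb p n m
  | none => 1
  | some i => PresentedGroup.of (some i)

lemma rel_pow {k : ℕ} (p : Fin k → ℕ) (n : ℕ) (m : ℤ) (i : Fin k) :
    (PresentedGroup.of (some i) : Orb p n m) ^ p i = 1 := by
  have h : (PresentedGroup.mk (orbRels p n m)) (of (some i) ^ p i) = 1 :=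
    PresentedGroup.one_of_mem (Or.inl ⟨i, rfl⟩)
  rw [map_pow] at h
  exact h

lemma rel_t {k : ℕ} (p : Fin k → ℕ) (n : ℕ) (m : ℤ) :
    (PresentedGroup.of none : Orb p n m) ^ n = 1 := by
  have h : (PresentedGroup.mk (orbRels p n m)) (of none ^ n) = 1 :=
    PresentedGroup.one_of_mem (Or.inr (Or.inl rfl))
  rw [map_pow] at h
  exact h

lemma rel_prod {k : ℕ} (p : Fin k → ℕ) (n : ℕ) (m : ℤ) :
    (List.ofFn fun i : Fin k => (PresentedGroup.of (some i) : Orb p n m)).prod =
      (PresentedGroup.of none : Orb p n m) ^ m := by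
  have h : (PresentedGroup.mk (orbRels p n m))
      ((List.ofFn fun i : Fin k => (of (some i) : FreeGroup (Option (Fin k)))).prod * (of none ^ m)⁻¹) = 1 :=
    PresentedGroup.one_of_mem (Or.inr (Or.inr rfl))
  rw [_root_.map_mul, _root_.map_inv, map_zpow, map_list_prod, List.map_ofFn] at h
  exact mul_inv_eq_one.1 h

lemma gv_rels {k : ℕ} (p : Fin k → ℕ) (q : Fin k → ℤ) (n : ℕ) (m : ℤ) :
    ∀ r ∈ seifRels p q, FreeGroup.lift (gv p n m) r = 1 := by
  rintro r (⟨i, rfl⟩ | ⟨i, rfl⟩)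
  · simp only [_root_.map_mul, _root_.map_inv, FreeGroup.lift_apply_of, gv]
    group
  · simp only [_root_.map_mul, _root_.map_inv, map_pow, map_zpow, FreeGroup.lift_apply_of, gv]
    rw [rel_pow]
    simp

/-- The map of the Seifert piece. -/
def sm {k : ℕ} (p : Fin k → ℕ) (q : Fin k → ℤ) (n : ℕ) (m : ℤ) : Seif p q →* Orb p n m :=
  PresentedGroup.toGroup (gv_rels p q n m)

lemma sm_of {k : ℕ} (p : Fin k → ℕ) (q : Fin k → ℤ) (n : ℕ) (m : ℤ) (o : Option (Fin k)) :
    sm p q n m (PresentedGroup.of o) = gv p n m o :=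
  PresentedGroup.toGroup.of (gv_rels p q n m)

lemma sm_fib {k : ℕ} (p : Fin k → ℕ) (q : Fin k → ℤ) (n : ℕ) (m : ℤ) :
    sm p q n m (fib p q) = 1 := sm_of p q n m none

lemma sm_sec {k : ℕ} (p : Fin k → ℕ) (q : Fin k → ℤ) (n : ℕ) (m : ℤ) :
    sm p q n m (sec p q) = (PresentedGroup.of none : Orb p n m) ^ m := by
  unfold sec
  rw [map_list_prod, List.map_ofFn, ← rel_prod]
  rfl

theorem key {C : Type} [Group C] {K : Bool → Type} [∀ b, Group (K b)] (φ : ∀ b, C →* K b) {k : ℕ}
    (p : Fin k → ℕ) (q : Fin k → ℤ) (e : K true ≃* Seif p q) (u v : C) (f : K false →* Multiplicative ℤ)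
    (hC : Subgroup.closure {u, v} = ⊤) (hu : e (φ true u) = fib p q) (hv : e (φ true v) = sec p q)
    (hf : Function.Surjective f) (n : ℕ)
    (hn : (n : ℤ) ∣ Multiplicative.toAdd (f (φ false u))) :
    ∃ π : Monoid.PushoutI φ →* Orb p n (Multiplicative.toAdd (f (φ false v))), Function.Surjective π := by
  set m : ℤ := Multiplicative.toAdd (f (φ false v)) with hm
  set t : Orb p n m := PresentedGroup.of none with ht
  let g : ∀ b, K b →* Orb p n m := fun b => match b with
    | true => (sm p q n m).comp e.toMonoidHom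
    | false => (zpowersHom (Orb p n m) t).comp f
  have hcomp : (g false).comp (φ false) = (g true).comp (φ true) := by
    apply MonoidHom.eq_of_eqOn_dense hC
    intro x hx
    rcases hx with rfl | hx
    · change (zpowersHom (Orb p n m) t) (f (φ false x)) = sm p q n m (e (φ true x))
      rw [hu, sm_fib, zpowersHom_apply]
      obtain ⟨c, hc⟩ := hn
      rw [hc, zpow_mul, zpow_natCast, rel_t, one_zpow]
    · rw [Set.mem_singleton_iff] at hx
      subst hx
      change (zpowersHom (Orb p n m) t) (f (φ false x)) = sm p q n m (e (φ true x))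
      rw [hv, sm_sec, zpowersHom_apply]
  let π : Monoid.PushoutI φ →* Orb p n m := Monoid.PushoutI.lift g ((g true).comp (φ true)) (by
    intro b
    cases b
    · exact hcomp
    · rfl)
  refine ⟨π, ?_⟩
  rw [← MonoidHom.range_eq_top, eq_top_iff, ← PresentedGroup.closure_range_of, Subgroup.closure_le]
  rintro _ ⟨o, rfl⟩
  cases o with
  | none =>
    obtain ⟨b, hb⟩ := hf (Multiplicative.ofAdd 1)
    refine ⟨Monoid.PushoutI.of false b, ?_⟩
    rw [Monoid.PushoutI.lift_of]
    change (zpowersHom (Orb p n m) t) (f b) = _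
    rw [hb, zpowersHom_apply, toAdd_ofAdd, zpow_one]
  | some i =>
    refine ⟨Monoid.PushoutI.of true (e.symm (PresentedGroup.of (some i))), ?_⟩
    rw [Monoid.PushoutI.lift_of]
    change sm p q n m (e (e.symm (PresentedGroup.of (some i)))) = _
    rw [MulEquiv.apply_symm_apply, sm_of]
    rfl

end ISE_A2

theorem se_A2 (hCO : StCO) (hEX : StEX) (hPB : StPB) : StA2 := by
  intro C _ K _ φ k p q e u v f hk hp hC hu hv hf hdvd h0 h1
  by_cases hfu : Multiplicative.toAdd (f (φ false u)) = 0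
  · have hs := h0 hfu
    set s : ℚ := ∑ i, (1 - 1 / (p i : ℚ)) with hsdef
    set m : ℤ := Multiplicative.toAdd (f (φ false v)) with hm
    have hm0 : m ≠ 0 := by
      intro hm0
      apply hdvd
      rw [hfu, hm0]
    obtain ⟨N₀, hN₀⟩ := exists_nat_ge (1 / (s - 1))
    have hN1 : m.natAbs < N₀ + m.natAbs + 1 := by omega
    have hpos : (0 : ℚ) < s - 1 := by linarith
    have hNq : (1 : ℚ) / ((N₀ + m.natAbs + 1 : ℕ) : ℚ) ≤ s - 1 := by
      rw [div_le_iff₀ (by positivity)]
      have h2 : (N₀ : ℚ) ≤ ((N₀ + m.natAbs + 1 : ℕ) : ℚ) := by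
        exact_mod_cast (by omega : N₀ ≤ N₀ + m.natAbs + 1)
      have h3 : 1 ≤ (s - 1) * N₀ := by
        rw [div_le_iff₀ hpos] at hN₀
        linarith
      nlinarith
    have hnd : ¬ (((N₀ + m.natAbs + 1 : ℕ) : ℤ) ∣ m) := by
      intro hd
      have h4 := Int.natAbs_dvd_natAbs.2 hd
      rw [Int.natAbs_natCast] at h4
      have h5 := Nat.le_of_dvd (Int.natAbs_pos.2 hm0) h4
      omega
    obtain ⟨π, hπ⟩ := ISE_A2.key φ p q e u v f hC hu hv hf (N₀ + m.natAbs + 1) (by
      rw [hfu]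
      exact dvd_zero _)
    refine hPB _ _ π hπ (hCO k p _ _ (fun i => le_trans (by norm_num) (hp i)) (by omega)
      (hEX k p _ _ hk hp (by omega) hnd) ?_)
    linarith
  · have hs := h1 hfu
    have hnpos : 1 ≤ (Multiplicative.toAdd (f (φ false u))).natAbs := by
      have := Int.natAbs_pos.2 hfu
      omega
    obtain ⟨π, hπ⟩ := ISE_A2.key φ p q e u v f hC hu hv hf
      (Multiplicative.toAdd (f (φ false u))).natAbs (Int.natAbs_dvd.2 (dvd_refl _))
    refine hPB _ _ π hπ (hCO k p _ _ (fun i => le_trans (by norm_num) (hp i)) hnpos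
      (hEX k p _ _ hk hp hnpos (fun hd => hdvd (Int.natAbs_dvd.1 hd))) ?_)
    rw [Nat.cast_natAbs, Int.cast_abs]
    exact hs

end Pool.Agent.Work.MP_7107b3_al.SE
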