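import Pool.Agent.Work.MP_7107b3_al.SE.Stmts

/-! # MP_7107b3_al, block SE, items BD and DS (spare versions) -/

set_option autoImplicit false

namespace Pool.Agent.Work.MP_7107b3_al.SE

open FreeGroup

namespace SpareBD

theorem act_one {F : Type} [Group F] (v : F → ℚ) : act (1 : F) v = v := by
  funext y
  simp [act]

theorem act_add {F : Type} [Group F] (g : F) (v w : F → ℚ) : act g (v + w) = act g v + act g w := rfl

theorem act_zero {F : Type} [Group F] (g : F) : act g (0 : F → ℚ) = 0 := rfl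

theorem act_neg {F : Type} [Group F] (g : F) (v : F → ℚ) : act g (-v) = -act g v := rfl

theorem act_mul {F : Type} [Group F] (g h : F) (v : F → ℚ) : act (g * h) v = act g (act h v) := by
  funext y
  simp [act, mul_assoc]

theorem der_one {Γ F : Type} [Group Γ] [Group F] {ρ : Γ →* F} {D : Γ → F → ℚ} (h : IsDer ρ D) : D 1 = 0 := by
  have h1 := h 1 1
  rw [mul_one, _root_.map_one, act_one] at h1
  exact left_eq_add.1 h1

theorem der_inv {Γ F : Type} [Group Γ] [Group F] {ρ : Γ →* F} {D : Γ → F → ℚ} (h : IsDer ρ D) (g : Γ) :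
    D g⁻¹ = - act (ρ g)⁻¹ (D g) := by
  have h1 := h g⁻¹ g
  rw [inv_mul_cancel, der_one h, _root_.map_inv] at h1
  exact eq_neg_of_add_eq_zero_left h1.symm

end SpareBD

theorem se_BDb : StBD := by
  intro X F _ ρ D b hD hb g
  have hact : ∀ (u : F) (v : F → ℚ), (∀ y, ∃ z : ℤ, (b : ℚ) * v y = z) → ∀ y, ∃ z : ℤ, (b : ℚ) * act u v y = z :=
    fun u v hv y => hv _
  have hadd : ∀ (v w : F → ℚ), (∀ y, ∃ z : ℤ, (b : ℚ) * v y = z) → (∀ y, ∃ z : ℤ, (b : ℚ) * w y = z) →
      ∀ y, ∃ z : ℤ, (b : ℚ) * (v + w) y = z := by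
    intro v w hv hw y
    obtain ⟨z, hz⟩ := hv y
    obtain ⟨z', hz'⟩ := hw y
    refine ⟨z + z', ?_⟩
    rw [Pi.add_apply, mul_add, hz, hz']
    push_cast
    rfl
  have hneg : ∀ (v : F → ℚ), (∀ y, ∃ z : ℤ, (b : ℚ) * v y = z) → ∀ y, ∃ z : ℤ, (b : ℚ) * (-v) y = z := by
    intro v hv y
    obtain ⟨z, hz⟩ := hv y
    refine ⟨-z, ?_⟩
    rw [Pi.neg_apply, mul_neg, hz]
    push_cast
    rfl
  induction g using FreeGroup.induction_on with
  | C1 =>
    intro y
    refine ⟨0, ?_⟩
    rw [SpareBD.der_one hD]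
    simp
  | of x => exact hb x
  | inv_of x hx =>
    rw [SpareBD.der_inv hD]
    exact hneg _ (hact _ _ hx)
  | mul g h hg hh =>
    rw [hD g h]
    exact hadd _ _ hg (hact _ _ hh)

theorem se_DSb : StDS := by
  intro X F _ R ρ D hD hR
  -- `D` vanishes on the normal closure
  let K : Subgroup (FreeGroup X) :=
    { carrier := {g | PresentedGroup.mk R g = 1 ∧ D g = 0}
      one_mem' := ⟨_root_.map_one _, SpareBD.der_one hD⟩
      mul_mem' := by
        rintro g h ⟨hg1, hg2⟩ ⟨hh1, hh2⟩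
        refine ⟨by rw [_root_.map_mul, hg1, hh1, one_mul], ?_⟩
        rw [hD g h, hg2, hh2, SpareBD.act_zero, add_zero]
      inv_mem' := by
        rintro g ⟨hg1, hg2⟩
        refine ⟨by rw [_root_.map_inv, hg1, inv_one], ?_⟩
        rw [SpareBD.der_inv hD, hg2, SpareBD.act_zero, neg_zero] }
  have hK : K.Normal := by
    refine ⟨fun n hn g => ?_⟩
    obtain ⟨h1, h2⟩ := hn
    refine ⟨by rw [_root_.map_mul, _root_.map_mul, h1, mul_one, ← _root_.map_mul, mul_inv_cancel, _root_.map_one], ?_⟩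
    have hρ : ρ.comp (PresentedGroup.mk R) (g * n) = ρ.comp (PresentedGroup.mk R) g := by
      rw [_root_.map_mul, MonoidHom.comp_apply _ _ n, h1, _root_.map_one, mul_one]
    rw [hD (g * n) g⁻¹, hD g n, h2, SpareBD.act_zero, add_zero, hρ, SpareBD.der_inv hD, SpareBD.act_neg,
      ← SpareBD.act_mul, mul_inv_cancel, SpareBD.act_one, add_neg_cancel]
  have hle : Subgroup.normalClosure R ≤ K := by
    refine Subgroup.normalClosure_le_normal ?_
    intro r hr
    exact ⟨PresentedGroup.one_of_mem hr, hR r hr⟩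
  have hwd : ∀ g h : FreeGroup X, PresentedGroup.mk R g = PresentedGroup.mk R h → D g = D h := by
    intro g h hgh
    have h1 : h⁻¹ * g ∈ Subgroup.normalClosure R := by
      have h2 : PresentedGroup.mk R (h⁻¹ * g) = 1 := by
        rw [_root_.map_mul, _root_.map_inv, hgh, inv_mul_cancel]
      exact (QuotientGroup.eq_one_iff _).1 h2
    have h3 := (hle h1).2
    have h4 := hD h (h⁻¹ * g)
    rw [mul_inv_cancel_left, h3, SpareBD.act_zero, add_zero] at h4
    exact h4
  have hsurj : Function.Surjective (PresentedGroup.mk R) := PresentedGroup.mk_surjective R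
  choose s hs using hsurj
  refine ⟨fun x => D (s x), ?_, fun g => hwd _ _ (hs _)⟩
  intro x y
  have h1 : D (s (x * y)) = D (s x * s y) := hwd _ _ (by rw [hs, _root_.map_mul, hs, hs])
  show D (s (x * y)) = D (s x) + act (ρ x) (D (s y))
  rw [h1, hD (s x) (s y), MonoidHom.comp_apply, hs]

end Pool.Agent.Work.MP_7107b3_al.SE
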