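import Pool.Agent.Work.MP_7107b3_al.SE.Stmts

set_option autoImplicit false

namespace Pool.Agent.Work.MP_7107b3_al.SE

open FreeGroup

namespace ISE_CN

theorem act_one {F : Type} [Group F] (v : F → ℚ) : act (1 : F) v = v := by
  funext y; simp [act]

/-- The value of a derivation at a power which goes to 1 is invariant. -/
theorem inv_pow {Γ F : Type} [Group Γ] [Group F] (ρ : Γ →* F) (D : Γ → F → ℚ) (h : IsDer ρ D)
    (g : Γ) (a : ℕ) (ha : ρ g ^ a = 1) : act (ρ g) (D (g ^ a)) = D (g ^ a) := by
  have h1 := h g (g ^ a)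
  have h2 := h (g ^ a) g
  rw [map_pow, ha, act_one] at h2
  have h3 : g * g ^ a = g ^ a * g := (Commute.refl g).pow_right a
  rw [h3, h2] at h1
  have h4 : D (g ^ a) + D g = act (ρ g) (D (g ^ a)) + D g := by rw [h1]; exact add_comm _ _
  exact (add_right_cancel h4).symm

/-- The map which sends a function to its inner derivation. -/
def inn {F X : Type} [Group F] (s : X → F) : (F → ℚ) →ₗ[ℚ] (X → F → ℚ) where
  toFun v := fun o => act (s o) v - v
  map_add' v w := by
    funext o y
    simp only [act, Pi.add_apply, Pi.sub_apply]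
    ring
  map_smul' c v := by
    funext o y
    simp only [act, Pi.smul_apply, Pi.sub_apply, RingHom.id_apply, smul_eq_mul]
    ring

theorem den {X F : Type} [Finite X] [Finite F] (v : X → F → ℚ) :
    ∃ b : ℕ, 0 < b ∧ ∀ o y, ∃ z : ℤ, (b : ℚ) * v o y = z := by
  classical
  have := Fintype.ofFinite X
  have := Fintype.ofFinite F
  refine ⟨∏ o, ∏ y, (v o y).den, Finset.prod_pos fun o _ => Finset.prod_pos fun y _ => (v o y).den_pos, ?_⟩
  intro o y
  have hd : (v o y).den ∣ ∏ o, ∏ y, (v o y).den :=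
    (Finset.dvd_prod_of_mem (fun y => (v o y).den) (Finset.mem_univ y)).trans
      (Finset.dvd_prod_of_mem (fun o => ∏ y, (v o y).den) (Finset.mem_univ o))
  obtain ⟨c, hc⟩ := hd
  refine ⟨c * (v o y).num, ?_⟩
  rw [hc]
  push_cast
  have h1 : ((v o y).den : ℚ) * v o y = (v o y).num := by
    rw [mul_comm]; exact Rat.mul_den_eq_num _
  calc ((v o y).den : ℚ) * (c : ℚ) * v o y = c * (((v o y).den : ℚ) * v o y) := by ring
    _ = _ := by rw [h1]

end ISE_CN

open ISE_CN

theorem se_CN (hFD : StFD) (hIV : StIV) (hLA : StLA) : StCN := by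
  classical
  intro k p n m F _ _ x t hp hn hx ht hxt hsum
  have := Fintype.ofFinite F
  set s : Option (Fin k) → F := fun o => o.elim t x with hs
  obtain ⟨L, hL1, hL2⟩ := hFD (Option (Fin k)) F (FreeGroup.lift s)
  choose Wf hWf1 hWf2 using fun g : F => hIV F g
  let W : Option (Option (Fin k)) → Submodule ℚ (F → ℚ) := fun j =>
    match j with
    | none => ⊤
    | some none => Wf t
    | some (some i) => Wf (x i)
  let T : Option (Option (Fin k)) → (Option (Fin k) → F → ℚ) →ₗ[ℚ] (F → ℚ) := fun j =>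
    match j with
    | none => L ((List.ofFn fun i : Fin k => (of (some i) : FreeGroup (Option (Fin k)))).prod *
        (of none ^ m)⁻¹)
    | some none => L (of none ^ n)
    | some (some i) => L (of (some i) ^ p i)
  have hN : 0 < Nat.card F := Nat.card_pos
  have hNq : (0 : ℚ) < (Nat.card F : ℚ) := by exact_mod_cast hN
  have hfU : Module.finrank ℚ (F → ℚ) = Nat.card F := by
    rw [Module.finrank_fintype_fun_eq_card, Nat.card_eq_fintype_card]
  have hfV : Module.finrank ℚ (Option (Fin k) → F → ℚ) = (k + 1) * Nat.card F := by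
    rw [Module.finrank_pi_fintype]
    simp only [hfU]
    simp
  have hT : ∀ j v, T j v ∈ W j := by
    intro j v
    match j with
    | none => exact Submodule.mem_top
    | some none =>
      refine (hWf1 t _).2 ?_
      have h := inv_pow (FreeGroup.lift s) (fun g => L g v) (hL1 v) (of none) n
        (by rw [FreeGroup.lift_apply_of]; simp only [hs, Option.elim]; rw [← ht]; exact pow_orderOf_eq_one t)
      rw [FreeGroup.lift_apply_of] at h
      exact h
    | some (some i) =>
      refine (hWf1 (x i) _).2 ?_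
      have h := inv_pow (FreeGroup.lift s) (fun g => L g v) (hL1 v) (of (some i)) (p i)
        (by rw [FreeGroup.lift_apply_of]; simp only [hs, Option.elim]; rw [← hx i]; exact pow_orderOf_eq_one (x i))
      rw [FreeGroup.lift_apply_of] at h
      exact h
  have hu0 : (fun _ => 1 : F → ℚ) ≠ 0 := by
    intro h
    have := congrFun h (1 : F)
    simp at this
  have hfu0 : inn s (fun _ => 1 : F → ℚ) = 0 := by
    funext o y
    simp [inn, act]
  have hdim : Module.finrank ℚ (F → ℚ) + ∑ j, Module.finrank ℚ (W j) ≤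
      Module.finrank ℚ (Option (Fin k) → F → ℚ) := by
    rw [hfU, hfV, Fintype.sum_option, Fintype.sum_option]
    have e1 : Module.finrank ℚ (W none) = Nat.card F := by
      show Module.finrank ℚ (⊤ : Submodule ℚ (F → ℚ)) = _
      rw [finrank_top, hfU]
    have e2 : (Module.finrank ℚ (W (some none)) : ℚ) ≤ (Nat.card F : ℚ) * (1 / n) := by
      have h := hWf2 t
      rw [ht] at h
      have h' : (n : ℚ) * (Module.finrank ℚ (Wf t) : ℚ) ≤ (Nat.card F : ℚ) := by exact_mod_cast h
      have hn' : (0 : ℚ) < n := by exact_mod_cast hn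
      show (Module.finrank ℚ (Wf t) : ℚ) ≤ _
      rw [mul_one_div, le_div_iff₀ hn']
      linarith [mul_comm (n : ℚ) (Module.finrank ℚ (Wf t) : ℚ)]
    have e3 : ∀ i, (Module.finrank ℚ (W (some (some i))) : ℚ) ≤ (Nat.card F : ℚ) * (1 / p i) := by
      intro i
      have h := hWf2 (x i)
      rw [hx i] at h
      have h' : (p i : ℚ) * (Module.finrank ℚ (Wf (x i)) : ℚ) ≤ (Nat.card F : ℚ) := by exact_mod_cast h
      have hn' : (0 : ℚ) < p i := by exact_mod_cast hp i
      show (Module.finrank ℚ (Wf (x i)) : ℚ) ≤ _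
      rw [mul_one_div, le_div_iff₀ hn']
      linarith [mul_comm (p i : ℚ) (Module.finrank ℚ (Wf (x i)) : ℚ)]
    have e4 : ∑ i, (Module.finrank ℚ (W (some (some i))) : ℚ) ≤ (Nat.card F : ℚ) * ∑ i, (1 / (p i : ℚ)) := by
      rw [Finset.mul_sum]
      exact Finset.sum_le_sum fun i _ => e3 i
    have e5 : ∑ i, (1 - 1 / (p i : ℚ)) = k - ∑ i, (1 / (p i : ℚ)) := by
      rw [Finset.sum_sub_distrib]
      simp
    rw [e5] at hsum
    have e6 : (((Nat.card F + (Module.finrank ℚ (W none) + (Module.finrank ℚ (W (some none)) +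
        ∑ i, Module.finrank ℚ (W (some (some i))))) : ℕ) : ℚ)) ≤ (((k + 1) * Nat.card F : ℕ) : ℚ) := by
      rw [e1]
      push_cast
      have e7 : (Nat.card F : ℚ) * (2 + 1 / n + ∑ i, (1 / (p i : ℚ))) ≤ (Nat.card F : ℚ) * (k + 1) :=
        mul_le_mul_of_nonneg_left (by linarith) hNq.le
      nlinarith [e2, e4, e7]
    exact_mod_cast e6
  obtain ⟨v, hv1, hv2⟩ := hLA (F → ℚ) (Option (Fin k) → F → ℚ) (F → ℚ) (Option (Option (Fin k))) W T
    (inn s) (fun _ => 1) hT hu0 hfu0 hdim
  obtain ⟨b, hb, hbz⟩ := den v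
  refine ⟨fun g => L g v, b, hL1 v, ?_, hb, ?_, ?_⟩
  · intro r hr
    rcases hr with ⟨i, hi⟩ | hr | hr
    · rw [hi]; exact hv1 (some (some i))
    · rw [hr]; exact hv1 (some none)
    · rw [hr]; exact hv1 none
  · intro o y
    obtain ⟨z, hz⟩ := hbz o y
    exact ⟨z, by show (b : ℚ) * L (of o) v y = z; rw [hL2]; exact hz⟩
  · intro u
    by_contra hcon
    push Not at hcon
    apply hv2 u
    funext o
    have h := hcon o
    have h' : L (of o) v = act (o.elim t x) u - u := h
    rw [hL2] at h'
    rw [h']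
    rfl

end Pool.Agent.Work.MP_7107b3_al.SE
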