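import Pool.Agent.Work.MP_7107b3_al.SE.Stmts

set_option autoImplicit false

namespace Pool.Agent.Work.MP_7107b3_al.SE

open FreeGroup

namespace ISE_CO

theorem lift_rel {k : ℕ} (p : Fin k → ℕ) (n : ℕ) (m : ℤ) {F : Type} [Group F] (x : Fin k → F) (t : F)
    (hx : ∀ i, orderOf (x i) = p i) (ht : orderOf t = n) (hprod : (List.ofFn x).prod = t ^ m) :
    ∀ r ∈ orbRels p n m, FreeGroup.lift (fun o : Option (Fin k) => o.elim t x) r = 1 := by
  intro r hr
  rcases hr with ⟨i, rfl⟩ | rfl | rfl
  · rw [map_pow, FreeGroup.lift_apply_of]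
    simp only [Option.elim_some]
    rw [← hx i, pow_orderOf_eq_one]
  · rw [map_pow, FreeGroup.lift_apply_of]
    simp only [Option.elim_none]
    rw [← ht, pow_orderOf_eq_one]
  · rw [_root_.map_mul, _root_.map_list_prod, List.map_ofFn, _root_.map_inv, _root_.map_zpow, FreeGroup.lift_apply_of]
    have h1 : (FreeGroup.lift (fun o : Option (Fin k) => o.elim t x)) ∘
        (fun i : Fin k => (of (some i) : FreeGroup (Option (Fin k)))) = x := by
      funext i
      simp [FreeGroup.lift_apply_of]
    rw [h1, hprod]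
    simp

end ISE_CO

theorem se_CO (hCN : StCN) (hDS : StDS) (hBD : StBD) (hDZ : StDZ) : StCO := by
  intro k p n m hp hn hQ hsum
  obtain ⟨F, _, _, x, t, hx, ht, hprod⟩ := hQ
  obtain ⟨D, b, hder, hrel, hb, hint, hnot⟩ := hCN k p n m F x t hp hn hx ht hprod hsum
  let ρ : Orb p n m →* F :=
    PresentedGroup.toGroup (f := fun o : Option (Fin k) => o.elim t x)
      (ISE_CO.lift_rel p n m x t hx ht hprod)
  have hρ : ρ.comp (PresentedGroup.mk (orbRels p n m)) =
      FreeGroup.lift (fun o : Option (Fin k) => o.elim t x) := by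
    apply FreeGroup.ext_hom
    intro o
    rw [FreeGroup.lift_apply_of, MonoidHom.comp_apply]
    exact PresentedGroup.toGroup.of (ISE_CO.lift_rel p n m x t hx ht hprod)
  have hder' : IsDer (ρ.comp (PresentedGroup.mk (orbRels p n m))) D := by
    rw [hρ]; exact hder
  obtain ⟨D', hD', hDD⟩ := hDS (Option (Fin k)) F (orbRels p n m) ρ D hder' hrel
  have hintD := hBD (Option (Fin k)) F _ D b hder hint
  refine hDZ (Orb p n m) F ρ D' b hD' ?_ hb ?_
  · intro v
    obtain ⟨o, ho⟩ := hnot v
    refine ⟨PresentedGroup.mk (orbRels p n m) (of o), ?_⟩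
    rw [hDD]
    have h2 : ρ (PresentedGroup.mk (orbRels p n m) (of o)) = o.elim t x := by
      have := DFunLike.congr_fun hρ (of o)
      rw [MonoidHom.comp_apply, FreeGroup.lift_apply_of] at this
      exact this
    rw [h2]
    exact ho
  · intro g y
    obtain ⟨w, rfl⟩ := PresentedGroup.mk_surjective (orbRels p n m) g
    rw [hDD]
    exact hintD w y

end Pool.Agent.Work.MP_7107b3_al.SE
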