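import Pool.Agent.Work.MP_7107b3_al.SE.Stmts

/-!
MP_7107b3_al, block SE, item DZ (helper90): a derivation which is not inner gives `VirtZ`.
-/

set_option autoImplicit false

namespace Pool.Agent.Work.MP_7107b3_al.SE

namespace ISE_DZ

theorem onto {N : Type} [Group N] (z : N → ℤ) (hadd : ∀ g h, z (g * h) = z g + z h) (a : N)
    (ha : z a ≠ 0) : ∃ f : N →* Multiplicative ℤ, Function.Surjective f := by
  let θ : Additive N →+ ℤ := AddMonoidHom.mk' (fun g => z (Additive.toMul g))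
    (fun g h => by rw [toMul_add]; exact hadd _ _)
  obtain ⟨c, hc⟩ := Int.subgroup_cyclic θ.range
  have hmem : ∀ n : ℤ, n ∈ θ.range ↔ c ∣ n := by
    intro n
    rw [hc, ← AddSubgroup.zmultiples_eq_closure, Int.mem_zmultiples_iff]
  have hdvd : ∀ g : N, c ∣ z g := fun g => (hmem _).1 ⟨Additive.ofMul g, rfl⟩
  have hc0 : c ≠ 0 := by
    intro h0
    apply ha
    have := hdvd a
    rw [h0] at this
    exact zero_dvd_iff.1 this
  refine ⟨MonoidHom.mk' (fun g => Multiplicative.ofAdd (z g / c)) ?_, ?_⟩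
  · intro g h
    rw [hadd, Int.add_ediv_of_dvd_left (hdvd g), ofAdd_add]
  · intro n
    obtain ⟨g, hg⟩ := (hmem (Multiplicative.toAdd n * c)).2 (Dvd.intro_left _ rfl)
    refine ⟨Additive.toMul g, ?_⟩
    have hg' : z (Additive.toMul g) = Multiplicative.toAdd n * c := hg
    rw [MonoidHom.mk'_apply, hg', Int.mul_ediv_cancel _ hc0]
    rfl

theorem act_one {F : Type} [Group F] (v : F → ℚ) : act 1 v = v := by
  funext y
  simp [act]

theorem act_add {F : Type} [Group F] (g : F) (v w : F → ℚ) : act g (v + w) = act g v + act g w := by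
  funext y
  simp [act]

theorem act_zero {F : Type} [Group F] (g : F) : act g (0 : F → ℚ) = 0 := by
  funext y
  simp [act]

theorem act_sum {F ι : Type} [Group F] (s : Finset ι) (g : F) (v : ι → F → ℚ) :
    act g (∑ i ∈ s, v i) = ∑ i ∈ s, act g (v i) := by
  funext y
  simp [act, Finset.sum_apply]

theorem exists_ne {Γ F : Type} [Group Γ] [Group F] [Finite F] (ρ : Γ →* F) (D : Γ → F → ℚ)
    (hD : IsDer ρ D) (hn : ∀ v : F → ℚ, ∃ g, D g ≠ act (ρ g) v - v) :
    ∃ a : Γ, ρ a = 1 ∧ ∃ y, D a y ≠ 0 := by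
  by_contra hcon
  have h0 : ∀ a : Γ, ρ a = 1 → D a = 0 := by
    intro a ha
    by_contra h
    apply hcon
    refine ⟨a, ha, ?_⟩
    by_contra h2
    apply h
    funext y
    by_contra h3
    exact h2 ⟨y, h3⟩
  have hsame : ∀ g h : Γ, ρ g = ρ h → D g = D h := by
    intro g h hgh
    have e1 : g = h * (h⁻¹ * g) := by group
    have e2 : ρ (h⁻¹ * g) = 1 := by
      rw [map_mul, map_inv, hgh]
      simp
    rw [e1, hD h (h⁻¹ * g), h0 _ e2, act_zero, add_zero]
  have : Fintype ρ.range := Fintype.ofFinite _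
  choose s hs using fun y : ρ.range => y.2
  let S : F → ℚ := ∑ y : ρ.range, D (s y)
  have hcard : (Fintype.card ρ.range : ℚ) ≠ 0 := by
    have : 0 < Fintype.card ρ.range := Fintype.card_pos
    exact_mod_cast this.ne'
  have key : ∀ g : Γ, (Fintype.card ρ.range : ℚ) • D g = S - act (ρ g) S := by
    intro g
    let r : ρ.range := ⟨ρ g, ⟨g, rfl⟩⟩
    have e1 : ∑ y : ρ.range, D (s (r * y)) = S :=
      Fintype.sum_equiv (Equiv.mulLeft r) _ _ (fun y => rfl)
    have e2 : ∀ y : ρ.range, D (s (r * y)) = D g + act (ρ g) (D (s y)) := by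
      intro y
      rw [← hD]
      apply hsame
      rw [map_mul, hs, hs]
      rfl
    rw [Finset.sum_congr rfl (fun y _ => e2 y), Finset.sum_add_distrib, Finset.sum_const,
      ← act_sum, Finset.card_univ] at e1
    have e3 : Fintype.card ρ.range • D g + act (ρ g) S = S := e1
    rw [eq_sub_iff_add_eq, Nat.cast_smul_eq_nsmul ℚ]
    exact e3
  obtain ⟨g, hg⟩ := hn (fun y => -(S y) / (Fintype.card ρ.range : ℚ))
  apply hg
  funext y
  have e := congrFun (key g) y
  simp only [Pi.smul_apply, Pi.sub_apply, smul_eq_mul, act] at e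
  simp only [Pi.sub_apply, act]
  field_simp
  linarith

end ISE_DZ

theorem se_DZ : StDZ := by
  intro Γ F _ _ _ ρ D b hD hn hb hz
  obtain ⟨a, ha, y, hy⟩ := ISE_DZ.exists_ne ρ D hD hn
  refine ⟨ρ.ker, Subgroup.finiteIndex_ker ρ, ?_⟩
  choose z hz' using fun g : ρ.ker => hz (g : Γ) y
  have hadd : ∀ g h : ρ.ker, z (g * h) = z g + z h := by
    intro g h
    have e1 : D ((g * h : ρ.ker) : Γ) y = D g y + D h y := by
      have hg : ρ (g : Γ) = 1 := g.2
      rw [Subgroup.coe_mul, hD, hg, ISE_DZ.act_one]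
      rfl
    have e2 : ((z (g * h) : ℤ) : ℚ) = ((z g + z h : ℤ) : ℚ) := by
      rw [← hz' (g * h), e1, Int.cast_add, ← hz' g, ← hz' h]
      ring
    exact_mod_cast e2
  have hb' : (b : ℚ) ≠ 0 := by
    exact_mod_cast hb.ne'
  refine ISE_DZ.onto z hadd ⟨a, ha⟩ ?_
  intro h0
  have e := hz' ⟨a, ha⟩
  rw [h0, Int.cast_zero] at e
  rcases mul_eq_zero.1 e with h | h
  · exact hb' h
  · exact hy h

end Pool.Agent.Work.MP_7107b3_al.SE
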