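import Pool.Agent.Work.MP_7107b3_al.SE.Stmts

/-!
# MP_7107b3_al, block SE, item EX
-/

set_option autoImplicit false

namespace Pool.Agent.Work.MP_7107b3_al.SE

namespace ISE_EX

/-- A product in which a single factor is not `1`. -/
lemma prod_one {F : Type} [Group F] : ∀ (k : ℕ) (b : Fin k) (y : F),
    (List.ofFn fun l : Fin k => if l = b then y else 1).prod = y := by
  intro k
  induction k with
  | zero => intro b; exact b.elim0
  | succ k ih =>
    intro b y
    rw [List.ofFn_succ, List.prod_cons]
    refine Fin.cases ?_ (fun b' => ?_) b
    · have h : (fun i : Fin k => if i.succ = 0 then y else (1 : F)) = fun _ => 1 := by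
        funext i
        rw [if_neg (Fin.succ_ne_zero i)]
      rw [h, List.ofFn_const, List.prod_replicate, one_pow, if_pos rfl, mul_one]
    · have h : (fun i : Fin k => if i.succ = b'.succ then y else (1 : F)) =
          fun i => if i = b' then y else 1 := by
        funext i
        simp only [Fin.succ_inj]
      rw [h, ih b' y, if_neg (Fin.succ_ne_zero b').symm, one_mul]

/-- A product in which two factors are not `1`. -/
lemma prod_two {F : Type} [Group F] : ∀ (k : ℕ) (a b : Fin k) (x y : F), a < b →
    (List.ofFn fun l : Fin k => if l = a then x else if l = b then y else 1).prod = x * y := by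
  intro k
  induction k with
  | zero => intro a; exact a.elim0
  | succ k ih =>
    intro a b x y hab
    obtain ⟨b', rfl⟩ : ∃ b' : Fin k, b = b'.succ :=
      ⟨b.pred (fun h => by subst h; exact absurd hab (Fin.not_lt_zero a)), (Fin.succ_pred _ _).symm⟩
    rw [List.ofFn_succ, List.prod_cons]
    by_cases ha : a = 0
    · subst ha
      have h : (fun i : Fin k => if i.succ = 0 then x else if i.succ = b'.succ then y else (1 : F)) =
          fun i => if i = b' then y else 1 := by
        funext i
        rw [if_neg (Fin.succ_ne_zero i)]
        simp only [Fin.succ_inj]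
      rw [h, prod_one, if_pos rfl]
    · obtain ⟨a', rfl⟩ : ∃ a' : Fin k, a = a'.succ := ⟨a.pred ha, (Fin.succ_pred _ _).symm⟩
      have h : (fun i : Fin k => if i.succ = a'.succ then x else if i.succ = b'.succ then y else (1 : F)) =
          fun i => if i = a' then x else if i = b' then y else 1 := by
        funext i
        simp only [Fin.succ_inj]
      rw [h, ih a' b' x y (Fin.succ_lt_succ_iff.mp hab), if_neg (Fin.succ_ne_zero a').symm,
        if_neg (Fin.succ_ne_zero b').symm, one_mul]

/-- The order of an element of a product one component of which has order `n`, the orders of the others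
dividing `n`. -/
lemma order_pi {ι : Type} {F : ι → Type} [∀ i, Group (F i)] (x : ∀ i, F i) (n : ℕ) (i₀ : ι)
    (h : ∀ i, x i ^ n = 1) (h₀ : orderOf (x i₀) = n) : orderOf x = n := by
  apply Nat.dvd_antisymm
  · apply orderOf_dvd_of_pow_eq_one
    funext i
    exact h i
  · conv_lhs => rw [← h₀]
    apply orderOf_dvd_of_pow_eq_one
    have := congrFun (pow_orderOf_eq_one x) i₀
    exact this

/-- A pair containing a given index. -/
lemma pair {k : ℕ} (hk : 2 ≤ k) (i : Fin k) : ∃ a b : Fin k, a < b ∧ (i = a ∨ i = b) := by
  by_cases hi : i.val = 0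
  · exact ⟨i, ⟨1, by omega⟩, by rw [Fin.lt_def]; simp [hi], Or.inl rfl⟩
  · exact ⟨⟨0, by omega⟩, i, by rw [Fin.lt_def]; simp; omega, Or.inr rfl⟩

end ISE_EX

open ISE_EX in
theorem se_EX (hTR : StTR) : StEX := by
  intro k p n m hk hp hn hnm
  choose a b hab hi using fun i : Fin k => pair hk i
  choose F gF fF X Y T hX hY hT hXY using
    fun i : Fin k => hTR (p (a i)) (p (b i)) n m (hp _) (hp _) hn hnm
  refine ⟨∀ i, F i, inferInstance, inferInstance,
    fun l i => if l = a i then X i else if l = b i then Y i else 1, fun i => T i, ?_, ?_, ?_⟩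
  · intro l
    refine order_pi _ (p l) l ?_ ?_
    · intro i
      dsimp only
      split_ifs with h1 h2
      · rw [h1, ← hX i]; exact pow_orderOf_eq_one _
      · rw [h2, ← hY i]; exact pow_orderOf_eq_one _
      · exact one_pow _
    · dsimp only
      rcases hi l with h | h
      · rw [if_pos h, hX l, ← h]
      · rw [if_neg (by intro h'; exact absurd (h'.symm.trans h) (ne_of_lt (hab l))), if_pos h, hY l, ← h]
  · refine order_pi _ n ⟨0, by omega⟩ ?_ (hT _)
    intro i
    rw [← hT i]; exact pow_orderOf_eq_one _
  · funext i
    have h1 : (List.ofFn fun (l : Fin k) (i : Fin k) =>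
        if l = a i then X i else if l = b i then Y i else 1).prod i =
        (List.ofFn fun l : Fin k => if l = a i then X i else if l = b i then Y i else 1).prod := by
      have := map_list_prod (Pi.evalMonoidHom F i) (List.ofFn fun (l : Fin k) (i : Fin k) =>
        if l = a i then X i else if l = b i then Y i else 1)
      rw [List.map_ofFn] at this
      exact this
    rw [h1, prod_two k (a i) (b i) (X i) (Y i) (hab i), hXY i]
    rfl

end Pool.Agent.Work.MP_7107b3_al.SE
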