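import Pool.Agent.Work.MP_7107b3_al.SE.Stmts

/-! [7107b3 SE FD] free derivations, depending linearly on the values at the generators. -/

set_option autoImplicit false

namespace Pool.Agent.Work.MP_7107b3_al.SE

open FreeGroup

namespace ISE_FD

variable (X F : Type) [Group F]

/-- The linear maps. -/
abbrev M : Type := (X → F → ℚ) →ₗ[ℚ] (F → ℚ)

/-- Translation as a linear map. -/
def actL (g : F) : (F → ℚ) →ₗ[ℚ] (F → ℚ) := LinearMap.funLeft ℚ ℚ (fun y => g⁻¹ * y)

theorem actL_apply (g : F) (v : F → ℚ) : actL F g v = act g v := rfl

theorem act_mul (g h : F) (v : F → ℚ) : act (g * h) v = act g (act h v) := by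
  funext y
  simp only [act, mul_inv_rev, mul_assoc]

theorem act_one (v : F → ℚ) : act (1 : F) v = v := by
  funext y
  simp [act]

/-- The action on the linear maps. -/
def actM (g : F) : M X F ≃+ M X F where
  toFun L := (actL F g).comp L
  invFun L := (actL F g⁻¹).comp L
  left_inv L := by
    refine LinearMap.ext fun d => ?_
    change act g⁻¹ (act g (L d)) = L d
    rw [← act_mul, inv_mul_cancel, act_one]
  right_inv L := by
    refine LinearMap.ext fun d => ?_
    change act g (act g⁻¹ (L d)) = L d
    rw [← act_mul, mul_inv_cancel, act_one]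
  map_add' L L' := by
    rw [LinearMap.comp_add]

/-- The action as a homomorphism. -/
def φ : F →* MulAut (Multiplicative (M X F)) where
  toFun g := AddEquiv.toMultiplicative (actM X F g)
  map_one' := by
    refine MulEquiv.ext fun L => ?_
    change Multiplicative.ofAdd ((actL F 1).comp (Multiplicative.toAdd L)) = L
    have h : (actL F 1).comp (Multiplicative.toAdd L) = Multiplicative.toAdd L := by
      refine LinearMap.ext fun d => ?_
      exact act_one F (Multiplicative.toAdd L d)
    rw [h]
    rfl
  map_mul' g h := by
    refine MulEquiv.ext fun L => ?_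
    change Multiplicative.ofAdd ((actL F (g * h)).comp (Multiplicative.toAdd L)) =
      Multiplicative.ofAdd ((actL F g).comp ((actL F h).comp (Multiplicative.toAdd L)))
    have h1 : (actL F (g * h)).comp (Multiplicative.toAdd L) =
        (actL F g).comp ((actL F h).comp (Multiplicative.toAdd L)) := by
      refine LinearMap.ext fun d => ?_
      change act (g * h) _ = act g (act h _)
      rw [act_mul]
    rw [h1]

end ISE_FD

open ISE_FD in
theorem se_FD : StFD := by
  intro X F _ ρ
  let Φ : FreeGroup X →* (Multiplicative (M X F)) ⋊[φ X F] F :=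
    FreeGroup.lift (fun x => ⟨Multiplicative.ofAdd (LinearMap.proj x), ρ (of x)⟩)
  have hr : ∀ g, (Φ g).right = ρ g := by
    intro g
    have h : (SemidirectProduct.rightHom).comp Φ = ρ := by
      refine FreeGroup.ext_hom _ _ fun x => ?_
      simp [Φ]
    exact DFunLike.congr_fun h g
  refine ⟨fun g => Multiplicative.toAdd (Φ g).left, fun d g h => ?_, fun x d => ?_⟩
  · have h1 : (Φ (g * h)).left = (Φ g).left * (φ X F (Φ g).right) (Φ h).left := by
      rw [MonoidHom.map_mul, SemidirectProduct.mul_left]
    change Multiplicative.toAdd (Φ (g * h)).left d = _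
    rw [h1, hr]
    rfl
  · have h2 : Φ (of x) = ⟨Multiplicative.ofAdd (LinearMap.proj x), ρ (of x)⟩ := by
      simp [Φ]
    change Multiplicative.toAdd (Φ (of x)).left d = _
    rw [h2]
    rfl

end Pool.Agent.Work.MP_7107b3_al.SE
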