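import Pool.Agent.Work.MP_7107b3_al.SE.Stmts

/-!
MP_7107b3_al, block SE, item IV: the functions invariant under `act g`.
-/

set_option autoImplicit false

namespace Pool.Agent.Work.MP_7107b3_al.SE

namespace ISE_IV

/-- The invariants of `act g`. -/
def W {F : Type} [Group F] (g : F) : Submodule ℚ (F → ℚ) where
  carrier := {v | act g v = v}
  add_mem' := by
    intro v w hv hw
    have hv' : act g v = v := hv
    have hw' : act g w = w := hw
    show act g (v + w) = v + w
    funext y
    have h1 := congrFun hv' y
    have h2 := congrFun hw' y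
    simp only [act] at h1 h2
    simp only [act, Pi.add_apply]
    rw [h1, h2]
  zero_mem' := by
    show act g 0 = 0
    funext y
    simp [act]
  smul_mem' := by
    intro c v hv
    have hv' : act g v = v := hv
    show act g (c • v) = c • v
    funext y
    have h1 := congrFun hv' y
    simp only [act] at h1
    simp only [act, Pi.smul_apply]
    rw [h1]

/-- The stabiliser of a function under left translations. -/
def stab {F : Type} [Group F] (v : F → ℚ) : Subgroup F where
  carrier := {h | ∀ y, v (h * y) = v y}
  mul_mem' := by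
    intro a b ha hb y
    have ha' : ∀ y, v (a * y) = v y := ha
    have hb' : ∀ y, v (b * y) = v y := hb
    show v (a * b * y) = v y
    rw [mul_assoc, ha', hb']
  one_mem' := by
    intro y
    show v (1 * y) = v y
    rw [one_mul]
  inv_mem' := by
    intro a ha y
    have ha' : ∀ y, v (a * y) = v y := ha
    show v (a⁻¹ * y) = v y
    have h := ha' (a⁻¹ * y)
    rw [mul_inv_cancel_left] at h
    exact h.symm

theorem inv_of_mem {F : Type} [Group F] {g : F} {v : F → ℚ} (hv : act g v = v) {h : F}
    (hh : h ∈ Subgroup.zpowers g) (y : F) : v (h * y) = v y := by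
  have h1 : g⁻¹ ∈ stab v := by
    intro y
    exact congrFun hv y
  have h2 : g ∈ stab v := by
    have := (stab v).inv_mem h1
    rwa [inv_inv] at this
  have h3 : Subgroup.zpowers g ≤ stab v := Subgroup.zpowers_le.2 h2
  exact h3 hh y

/-- The restriction of an invariant function to representatives. -/
noncomputable def res {F : Type} [Group F] (g : F) :
    W g →ₗ[ℚ] ((F ⧸ Subgroup.zpowers g) → ℚ) where
  toFun v := fun q => (v : F → ℚ) (q.out)⁻¹
  map_add' := by
    intro v w
    rfl
  map_smul' := by
    intro c v
    rfl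

theorem res_inj {F : Type} [Group F] (g : F) : Function.Injective (res g) := by
  rw [injective_iff_map_eq_zero]
  intro v hv
  apply Subtype.ext
  funext y
  have hvW : act g (v : F → ℚ) = v := v.2
  obtain ⟨h, hh⟩ := QuotientGroup.mk_out_eq_mul (Subgroup.zpowers g) y⁻¹
  have h1 : (v : F → ℚ) ((QuotientGroup.mk y⁻¹ : F ⧸ Subgroup.zpowers g).out)⁻¹ = 0 :=
    congrFun hv (QuotientGroup.mk y⁻¹)
  rw [hh, mul_inv_rev, inv_inv] at h1
  rw [inv_of_mem hvW ((Subgroup.zpowers g).inv_mem h.2) y] at h1
  exact h1

end ISE_IV

theorem se_IV : StIV := by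
  intro F _ _ g
  refine ⟨ISE_IV.W g, fun v => Iff.rfl, ?_⟩
  classical
  have : Fintype (F ⧸ Subgroup.zpowers g) := Fintype.ofFinite _
  have h1 : Module.finrank ℚ (ISE_IV.W g) ≤ Module.finrank ℚ ((F ⧸ Subgroup.zpowers g) → ℚ) :=
    LinearMap.finrank_le_finrank_of_injective (ISE_IV.res_inj g)
  rw [Module.finrank_fintype_fun_eq_card, ← Nat.card_eq_fintype_card] at h1
  calc orderOf g * Module.finrank ℚ (ISE_IV.W g)
      ≤ orderOf g * Nat.card (F ⧸ Subgroup.zpowers g) := Nat.mul_le_mul_left _ h1
    _ = Nat.card (Subgroup.zpowers g) * (Subgroup.zpowers g).index := by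
        rw [Nat.card_zpowers]
        rfl
    _ = Nat.card F := Subgroup.card_mul_index _

end Pool.Agent.Work.MP_7107b3_al.SE
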