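import Pool.Agent.Work.MP_7107b3_al.SE.Stmts

/-!
# MP_7107b3_al, block SE, item LA: linear algebra
-/

set_option autoImplicit false

namespace Pool.Agent.Work.MP_7107b3_al.SE

theorem se_LA : StLA := by
  intro U V M J _ _ _ _ _ _ _ _ _ _ W T f u₀ hT hu hf hd
  by_contra hcon
  push Not at hcon
  let Φ : V →ₗ[ℚ] ((j : J) → W j) := LinearMap.pi (fun j => (T j).codRestrict (W j) (hT j))
  have h1 : LinearMap.ker Φ ≤ LinearMap.range f := by
    intro v hv
    have h0 : ∀ j, T j v = 0 := by
      intro j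
      have h2 : Φ v = 0 := hv
      have h3 : Φ v j = 0 := by rw [h2]; rfl
      have h4 : ((Φ v j : W j) : M) = 0 := by rw [h3]; rfl
      exact h4
    obtain ⟨u, hu'⟩ := hcon v h0
    exact ⟨u, hu'⟩
  have h2 := Submodule.finrank_mono h1
  have h3 := LinearMap.finrank_range_add_finrank_ker Φ
  have h4 := LinearMap.finrank_range_add_finrank_ker f
  have h5 : 0 < Module.finrank ℚ (LinearMap.ker f) := by
    haveI : Nontrivial (LinearMap.ker f) :=
      ⟨⟨⟨u₀, hf⟩, 0, fun h => hu (congrArg Subtype.val h)⟩⟩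
    exact Module.finrank_pos
  have h6 : Module.finrank ℚ (LinearMap.range Φ) ≤ ∑ j, Module.finrank ℚ (W j) := by
    calc Module.finrank ℚ (LinearMap.range Φ) ≤ Module.finrank ℚ ((j : J) → W j) := Submodule.finrank_le _
      _ = ∑ j, Module.finrank ℚ (W j) := Module.finrank_pi_fintype ℚ
  omega

end Pool.Agent.Work.MP_7107b3_al.SE
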