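import Pool.Agent.Work.MP_7107b3_al.SE.Stmts

/-! Item OD of block SE. -/

set_option autoImplicit false

namespace Pool.Agent.Work.MP_7107b3_al.SE

namespace ISE_OD

abbrev Mt (K : Type) [Field K] := Matrix (Fin 2) (Fin 2) K

theorem key {K : Type} [Field K] (Y : Mt K) (ξ : K) (h : Y ^ 2 = (1 + ξ) • Y - ξ • (1 : Mt K)) (j : ℕ) :
    (ξ - 1) • Y ^ j = (ξ ^ j - 1) • Y + (ξ - ξ ^ j) • (1 : Mt K) := by
  induction j with
  | zero => simp
  | succ j ih =>
    have h1 : (ξ - 1) • Y ^ (j + 1) = ((ξ - 1) • Y ^ j) * Y := by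
      rw [pow_succ, smul_mul_assoc]
    rw [h1, ih, add_mul, smul_mul_assoc, smul_mul_assoc, one_mul, ← pow_two, h, smul_sub, smul_smul,
      smul_smul, pow_succ]
    module

def E1 (K : Type) [Field K] : (Mt K)ˣ where
  val := !![1, 1; 0, 1]
  inv := !![1, -1; 0, 1]
  val_inv := by
    ext i j
    fin_cases i <;> fin_cases j <;> simp [Matrix.mul_apply, Fin.sum_univ_two]
  inv_val := by
    ext i j
    fin_cases i <;> fin_cases j <;> simp [Matrix.mul_apply, Fin.sum_univ_two]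

def E2 (K : Type) [Field K] : (Mt K)ˣ where
  val := !![1, 0; 1, 1]
  inv := !![1, 0; -1, 1]
  val_inv := by
    ext i j
    fin_cases i <;> fin_cases j <;> simp [Matrix.mul_apply, Fin.sum_univ_two]
  inv_val := by
    ext i j
    fin_cases i <;> fin_cases j <;> simp [Matrix.mul_apply, Fin.sum_univ_two]

theorem scal {K : Type} [Field K] (M : Mt K) (h1 : M * !![1, 1; 0, 1] = !![1, 1; 0, 1] * M)
    (h2 : M * !![1, 0; 1, 1] = !![1, 0; 1, 1] * M) : M 0 1 = 0 ∧ M 0 0 = M 1 1 := by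
  have e1 := congrFun (congrFun h1 0) 1
  have e2 := congrFun (congrFun h2 0) 0
  simp [Matrix.mul_apply, Fin.sum_univ_two] at e1 e2
  refine ⟨?_, ?_⟩
  · exact e2
  · linear_combination e1

theorem conj_one {G : Type} [Group G] (g : G) : MulAut.conj g = 1 ↔ ∀ h, g * h = h * g := by
  constructor
  · intro h x
    have h1 : MulAut.conj g x = (1 : MulAut G) x := by rw [h]
    rw [MulAut.conj_apply, MulAut.one_apply] at h1
    calc g * x = (g * x * g⁻¹) * g := by group
      _ = x * g := by rw [h1]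
  · intro h
    ext x
    rw [MulAut.conj_apply, MulAut.one_apply, h x]
    group

end ISE_OD

open ISE_OD in
theorem se_OD : StOD := by
  intro K _ X ξ u hξ hu hX hne
  have hξ' : ξ - 1 ≠ 0 := sub_ne_zero.2 hξ
  obtain ⟨Y, hY⟩ : ∃ Y : Mt K, Y = u⁻¹ • (X : Mt K) := ⟨_, rfl⟩
  have hXY : (X : Mt K) = u • Y := by
    rw [hY, smul_smul, mul_inv_cancel₀ hu, one_smul]
  have hY2 : Y ^ 2 = (1 + ξ) • Y - ξ • (1 : Mt K) := by
    have h1 : u ^ 2 • Y ^ 2 = u ^ 2 • ((1 + ξ) • Y - ξ • (1 : Mt K)) := by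
      rw [← smul_pow, ← hXY, hX, hXY]
      module
    have h2 := congrArg (fun Z => (u ^ 2)⁻¹ • Z) h1
    simpa [smul_smul, inv_mul_cancel₀ (pow_ne_zero 2 hu)] using h2
  have hk := key Y ξ hY2
  rw [orderOf_eq_orderOf_iff]
  intro j
  rw [← map_pow, conj_one]
  have hXj : ((X ^ j : (Mt K)ˣ) : Mt K) = u ^ j • Y ^ j := by
    rw [Units.val_pow_eq_pow_val, hXY, smul_pow]
  have huj : u ^ j ≠ 0 := pow_ne_zero j hu
  constructor
  · intro h
    by_contra hj
    have hj' : ξ ^ j - 1 ≠ 0 := sub_ne_zero.2 hj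
    have hcomm : ∀ E : (Mt K)ˣ, (X : Mt K) * E = E * X := by
      intro E
      have h1 := congrArg Units.val (h E)
      rw [Units.val_mul, Units.val_mul, hXj, smul_mul_assoc, mul_smul_comm] at h1
      have h2 : Y ^ j * (E : Mt K) = E * Y ^ j := by
        have h3 := congrArg (fun Z => (u ^ j)⁻¹ • Z) h1
        simpa [smul_smul, inv_mul_cancel₀ huj] using h3
      have h4 : ((ξ - 1) • Y ^ j) * (E : Mt K) = E * ((ξ - 1) • Y ^ j) := by
        rw [smul_mul_assoc, mul_smul_comm, h2]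
      rw [hk j, add_mul, mul_add, smul_mul_assoc, smul_mul_assoc, mul_smul_comm, mul_smul_comm,
        one_mul, mul_one, add_left_inj] at h4
      have h5 : Y * (E : Mt K) = E * Y := by
        have h6 := congrArg (fun Z => (ξ ^ j - 1)⁻¹ • Z) h4
        simpa [smul_smul, inv_mul_cancel₀ hj'] using h6
      rw [hXY, smul_mul_assoc, mul_smul_comm, h5]
    obtain ⟨h1, h2⟩ := scal (X : Mt K) (hcomm (E1 K)) (hcomm (E2 K))
    rcases hne with h | h
    · exact h h1
    · exact h h2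
  · intro h g
    have h1 := hk j
    rw [h, sub_self, zero_smul, zero_add] at h1
    have h2 : Y ^ j = 1 := by
      have h3 := congrArg (fun Z => (ξ - 1)⁻¹ • Z) h1
      simpa [smul_smul, inv_mul_cancel₀ hξ'] using h3
    ext1
    rw [Units.val_mul, Units.val_mul, hXj, h2, smul_mul_assoc, mul_smul_comm, one_mul, mul_one]

end Pool.Agent.Work.MP_7107b3_al.SE
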