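import Pool.Agent.Work.MP_7107b3_al.SE.Stmts

/-!
# MP_7107b3_al, block SE, item PB: pull back of VirtZ along a surjective homomorphism
-/

set_option autoImplicit false

namespace Pool.Agent.Work.MP_7107b3_al.SE

theorem se_PB : StPB := by
  intro G Γ _ _ π hπ h
  obtain ⟨H, hH, f, hf⟩ := h
  refine ⟨H.comap π, ?_, f.comp (π.subgroupComap H), ?_⟩
  · refine ⟨?_⟩
    rw [Subgroup.index_comap_of_surjective H hπ]
    exact hH.index_ne_zero
  · intro z
    obtain ⟨y, hy⟩ := hf z
    obtain ⟨g, hg⟩ := hπ (y : Γ)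
    have hm : g ∈ H.comap π := by
      rw [Subgroup.mem_comap, hg]
      exact y.2
    refine ⟨⟨g, hm⟩, ?_⟩
    rw [MonoidHom.comp_apply, ← hy]
    congr 1
    exact Subtype.ext hg

end Pool.Agent.Work.MP_7107b3_al.SE
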