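import Pool.Agent.Work.MP_7107b3_al.SE.Stmts

/-!
# MP_7107b3_al, block SE, item TR: the triple lemma
-/

set_option autoImplicit false

namespace Pool.Agent.Work.MP_7107b3_al.SE

namespace ISE_TR

theorem exists_sq_order (l : ℕ) [Fact l.Prime] (k : ℕ) (h : 2 * k ∣ l - 1) :
    ∃ z : (ZMod l)ˣ, orderOf (z ^ 2) = k := by
  obtain ⟨g, hg⟩ := IsCyclic.exists_generator (α := (ZMod l)ˣ)
  have hg' : orderOf g = l - 1 := by
    rw [orderOf_eq_card_of_forall_mem_zpowers hg, Nat.card_eq_fintype_card, ZMod.card_units l]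
  obtain ⟨c, hc⟩ := h
  have hl : 2 ≤ l := (Fact.out : l.Prime).two_le
  have hc0 : c ≠ 0 := by
    rintro rfl
    omega
  refine ⟨g ^ c, ?_⟩
  have hd : c * 2 ∣ orderOf g := by
    rw [hg', hc]
    exact ⟨k, by ring⟩
  rw [← pow_mul, orderOf_pow_of_dvd (by omega) hd, hg', hc]
  have : 2 * k * c = k * (c * 2) := by ring
  rw [this]
  exact Nat.mul_div_cancel _ (by omega)

/-- The diagonal matrices with the entries `u, 1`. -/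
noncomputable def dg (K : Type) [Field K] : Kˣ →* (Matrix (Fin 2) (Fin 2) K)ˣ where
  toFun u := ⟨!![(u : K), 0; 0, 1], !![((u⁻¹ : Kˣ) : K), 0; 0, 1], by
    ext i j; fin_cases i <;> fin_cases j <;> simp [Matrix.mul_apply, Fin.sum_univ_two], by
    ext i j; fin_cases i <;> fin_cases j <;> simp [Matrix.mul_apply, Fin.sum_univ_two]⟩
  map_one' := by
    apply Units.ext
    ext i j; fin_cases i <;> fin_cases j <;> simp
  map_mul' u v := by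
    apply Units.ext
    ext i j; fin_cases i <;> fin_cases j <;> simp [Matrix.mul_apply, Fin.sum_univ_two]

theorem dg_val (K : Type) [Field K] (u : Kˣ) :
    ((dg K u : (Matrix (Fin 2) (Fin 2) K)ˣ) : Matrix (Fin 2) (Fin 2) K) = !![(u : K), 0; 0, 1] := rfl

theorem sq_eq (K : Type) [Field K] (x y z w t e : K) (h00 : x * x + y * z = t * x - e)
    (h01 : x * y + y * w = t * y) (h10 : z * x + w * z = t * z) (h11 : z * y + w * w = t * w - e) :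
    (!![x, y; z, w] : Matrix (Fin 2) (Fin 2) K) ^ 2 = t • !![x, y; z, w] - e • 1 := by
  have h : (!![x, y; z, w] : Matrix (Fin 2) (Fin 2) K) ^ 2 =
      !![x * x + y * z, x * y + y * w; z * x + w * z, z * y + w * w] := by
    rw [pow_two, Matrix.mul_fin_two]
  rw [h, h00, h01, h10, h11]
  ext i j
  fin_cases i <;> fin_cases j <;> simp

/-- The first matrix. -/
noncomputable def XX (K : Type) [Field K] (a d ξ : K) (hξ : ξ ≠ 0) : (Matrix (Fin 2) (Fin 2) K)ˣ :=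
  ⟨!![a, 1; a * d - ξ, d], !![ξ⁻¹ * d, -ξ⁻¹; -(ξ⁻¹ * (a * d - ξ)), ξ⁻¹ * a], by
    rw [Matrix.mul_fin_two, Matrix.one_fin_two]
    congr 1
    ext i j
    fin_cases i <;> fin_cases j <;> simp <;> field_simp <;> ring, by
    rw [Matrix.mul_fin_two, Matrix.one_fin_two]
    congr 1
    ext i j
    fin_cases i <;> fin_cases j <;> simp <;> field_simp <;> ring⟩

theorem core (K : Type) [Field K] (ξ η τ ω : K) (hξ : ξ ≠ 0) (hτ : τ ≠ 1)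
    (hω : ω ^ 2 * η = ξ * τ) : ∃ X : (Matrix (Fin 2) (Fin 2) K)ˣ,
    ((X : Matrix (Fin 2) (Fin 2) K) ^ 2 = ((1 + ξ) * 1) • (X : Matrix (Fin 2) (Fin 2) K) - (ξ * 1 ^ 2) • 1) ∧
    (X : Matrix (Fin 2) (Fin 2) K) 0 1 ≠ 0 ∧
    ∀ D : (Matrix (Fin 2) (Fin 2) K)ˣ, (D : Matrix (Fin 2) (Fin 2) K) = !![τ, 0; 0, 1] →
      (((X⁻¹ * D : (Matrix (Fin 2) (Fin 2) K)ˣ) : Matrix (Fin 2) (Fin 2) K) ^ 2 =
        ((1 + η) * (ω / ξ)) • ((X⁻¹ * D : (Matrix (Fin 2) (Fin 2) K)ˣ) : Matrix (Fin 2) (Fin 2) K) -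
          (η * (ω / ξ) ^ 2) • 1) ∧
      ((X⁻¹ * D : (Matrix (Fin 2) (Fin 2) K)ˣ) : Matrix (Fin 2) (Fin 2) K) 0 1 ≠ 0 := by
  obtain ⟨d, hd⟩ : ∃ d : K, d * (τ - 1) = ω * (1 + η) - 1 - ξ :=
    ⟨(ω * (1 + η) - 1 - ξ) / (τ - 1), div_mul_cancel₀ _ (sub_ne_zero.mpr hτ)⟩
  obtain ⟨a, ha⟩ : ∃ a : K, a = 1 + ξ - d := ⟨_, rfl⟩
  have hs : d * τ + a = ω * (1 + η) := by rw [ha]; linear_combination hd
  have had : a + d = 1 + ξ := by rw [ha]; ring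
  refine ⟨XX K a d ξ hξ, ?_, ?_, ?_⟩
  · show (!![a, 1; a * d - ξ, d] : Matrix (Fin 2) (Fin 2) K) ^ 2 = _ • !![a, 1; a * d - ξ, d] - _ • 1
    apply sq_eq
    · linear_combination a * had
    · linear_combination had
    · linear_combination (a * d - ξ) * had
    · linear_combination d * had
  · show (!![a, 1; a * d - ξ, d] : Matrix (Fin 2) (Fin 2) K) 0 1 ≠ 0
    simp
  · intro D hD
    have hY : (((XX K a d ξ hξ)⁻¹ * D : (Matrix (Fin 2) (Fin 2) K)ˣ) : Matrix (Fin 2) (Fin 2) K) =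
      !![ξ⁻¹ * d * τ, -ξ⁻¹; -(ξ⁻¹ * (a * d - ξ) * τ), ξ⁻¹ * a] := by
      rw [Units.val_mul, hD]
      show (!![ξ⁻¹ * d, -ξ⁻¹; -(ξ⁻¹ * (a * d - ξ)), ξ⁻¹ * a] : Matrix (Fin 2) (Fin 2) K) * _ = _
      rw [Matrix.mul_fin_two]
      simp
    rw [hY]
    have hr : ξ⁻¹ * ξ = 1 := inv_mul_cancel₀ hξ
    obtain ⟨r, hr'⟩ : ∃ r : K, r = ξ⁻¹ := ⟨_, rfl⟩
    rw [div_eq_mul_inv, ← hr']
    rw [← hr'] at hr
    refine ⟨?_, ?_⟩
    · apply sq_eq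
      · linear_combination (r ^ 2 * d * τ) * hs + r ^ 2 * hω
      · linear_combination (-r ^ 2) * hs
      · linear_combination (-r ^ 2 * (a * d - ξ) * τ) * hs
      · linear_combination (r ^ 2 * a) * hs + r ^ 2 * hω
    · have : r ≠ 0 := by rw [hr']; exact inv_ne_zero hξ
      simpa using this

end ISE_TR

theorem se_TR (hOD : StOD) : StTR := by
  intro p q n m hp hq hn hm
  have hn2 : 2 ≤ n := by
    rcases Nat.lt_or_ge n 2 with h | h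
    · exfalso
      apply hm
      have : n = 1 := by omega
      rw [this]
      simp
    · exact h
  obtain ⟨l, hl, -, hl1⟩ := Nat.exists_prime_gt_modEq_one (k := 2 * (p * q * n)) 0 (by positivity)
  have : Fact l.Prime := ⟨hl⟩
  have hdvd : 2 * (p * q * n) ∣ l - 1 := (Nat.modEq_iff_dvd' hl.one_le).mp hl1.symm
  obtain ⟨z1, h1⟩ := ISE_TR.exists_sq_order l p (dvd_trans ⟨q * n, by ring⟩ hdvd)
  obtain ⟨z2, h2⟩ := ISE_TR.exists_sq_order l q (dvd_trans ⟨p * n, by ring⟩ hdvd)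
  obtain ⟨z3, h3⟩ := ISE_TR.exists_sq_order l n (dvd_trans ⟨p * q, by ring⟩ hdvd)
  have ho : ∀ (z : (ZMod l)ˣ), orderOf ((z : (ZMod l)ˣ) : ZMod l) = orderOf z := fun z => orderOf_units
  have hne : ∀ (z : (ZMod l)ˣ) (k : ℕ), 2 ≤ k → orderOf z = k → ((z : (ZMod l)ˣ) : ZMod l) ≠ 1 := by
    intro z k hk hz h
    rw [← ho z, h, orderOf_one] at hz
    omega
  have hτ1 : (((z3 ^ 2) ^ m : (ZMod l)ˣ) : ZMod l) ≠ 1 := by
    intro h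
    have h' : (z3 ^ 2) ^ m = 1 := Units.ext (by simpa using h)
    apply hm
    rw [← h3]
    exact orderOf_dvd_iff_zpow_eq_one.mpr h'
  have hω : (((z1 * z3 ^ m * z2⁻¹ : (ZMod l)ˣ) : ZMod l)) ^ 2 * (((z2 ^ 2 : (ZMod l)ˣ)) : ZMod l) =
      ((z1 ^ 2 : (ZMod l)ˣ) : ZMod l) * (((z3 ^ 2) ^ m : (ZMod l)ˣ) : ZMod l) := by
    have : (z1 * z3 ^ m * z2⁻¹) ^ 2 * z2 ^ 2 = z1 ^ 2 * (z3 ^ 2) ^ m := by
      have e1 : (z3 ^ 2) ^ m = (z3 ^ m) ^ 2 := by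
        rw [← zpow_natCast, ← zpow_natCast, ← zpow_mul, ← zpow_mul, mul_comm]
      rw [e1, mul_pow, mul_pow, inv_pow]
      group
    rw [← Units.val_pow_eq_pow_val, ← Units.val_mul, ← Units.val_mul, this]
  obtain ⟨X, hX1, hX2, hX3⟩ := ISE_TR.core (ZMod l) ((z1 ^ 2 : (ZMod l)ˣ) : ZMod l)
    ((z2 ^ 2 : (ZMod l)ˣ) : ZMod l) (((z3 ^ 2) ^ m : (ZMod l)ˣ) : ZMod l)
    ((z1 * z3 ^ m * z2⁻¹ : (ZMod l)ˣ) : ZMod l) (Units.ne_zero _) hτ1 hω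
  have hD : (((ISE_TR.dg (ZMod l) (z3 ^ 2)) ^ m : (Matrix (Fin 2) (Fin 2) (ZMod l))ˣ) :
      Matrix (Fin 2) (Fin 2) (ZMod l)) = !![(((z3 ^ 2) ^ m : (ZMod l)ˣ) : ZMod l), 0; 0, 1] := by
    rw [← map_zpow, ISE_TR.dg_val]
  obtain ⟨hY1, hY2⟩ := hX3 _ hD
  have hT : ((ISE_TR.dg (ZMod l) (z3 ^ 2) : (Matrix (Fin 2) (Fin 2) (ZMod l))ˣ) :
      Matrix (Fin 2) (Fin 2) (ZMod l)) ^ 2 = ((1 + ((z3 ^ 2 : (ZMod l)ˣ) : ZMod l)) * 1) •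
        ((ISE_TR.dg (ZMod l) (z3 ^ 2) : (Matrix (Fin 2) (Fin 2) (ZMod l))ˣ) :
      Matrix (Fin 2) (Fin 2) (ZMod l)) - (((z3 ^ 2 : (ZMod l)ˣ) : ZMod l) * 1 ^ 2) • 1 := by
    rw [ISE_TR.dg_val]
    apply ISE_TR.sq_eq <;> ring
  have o1 := hOD (ZMod l) X ((z1 ^ 2 : (ZMod l)ˣ) : ZMod l) 1 (hne _ p hp h1) one_ne_zero hX1 (Or.inl hX2)
  have o2 := hOD (ZMod l) (X⁻¹ * (ISE_TR.dg (ZMod l) (z3 ^ 2)) ^ m) ((z2 ^ 2 : (ZMod l)ˣ) : ZMod l)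
    (((z1 * z3 ^ m * z2⁻¹ : (ZMod l)ˣ) : ZMod l) / ((z1 ^ 2 : (ZMod l)ˣ) : ZMod l)) (hne _ q hq h2)
    (div_ne_zero (Units.ne_zero _) (Units.ne_zero _)) hY1 (Or.inl hY2)
  have o3 := hOD (ZMod l) (ISE_TR.dg (ZMod l) (z3 ^ 2)) ((z3 ^ 2 : (ZMod l)ˣ) : ZMod l) 1
    (hne _ n hn2 h3) one_ne_zero hT (Or.inr (by
      rw [ISE_TR.dg_val]
      simpa using hne _ n hn2 h3))
  rw [ho, h1] at o1
  rw [ho, h2] at o2
  rw [ho, h3] at o3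
  refine ⟨MulAut ((Matrix (Fin 2) (Fin 2) (ZMod l))ˣ), inferInstance, inferInstance, MulAut.conj X,
    MulAut.conj (X⁻¹ * (ISE_TR.dg (ZMod l) (z3 ^ 2)) ^ m), MulAut.conj (ISE_TR.dg (ZMod l) (z3 ^ 2)),
    o1, o2, o3, ?_⟩
  rw [← map_mul, mul_inv_cancel_left, map_zpow]

end Pool.Agent.Work.MP_7107b3_al.SE
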