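import Pool.Agent.Work.MP_7107b3_al.SE.G12
import Pool.Agent.Work.MP_7107b3_al.SE.I_PB
import Pool.Agent.Work.MP_7107b3_al.SE.I_OD
import Pool.Agent.Work.MP_7107b3_al.SE.I_TR
import Pool.Agent.Work.MP_7107b3_al.SE.I_EX
import Pool.Agent.Work.MP_7107b3_al.SE.I_DZ
import Pool.Agent.Work.MP_7107b3_al.SE.I_FD
import Pool.Agent.Work.MP_7107b3_al.SE.I_BDb
import Pool.Agent.Work.MP_7107b3_al.SE.I_IV
import Pool.Agent.Work.MP_7107b3_al.SE.I_LA
import Pool.Agent.Work.MP_7107b3_al.SE.I_CN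
import Pool.Agent.Work.MP_7107b3_al.SE.I_CO

/-! # MP_7107b3_al, block SE: the theorems -/

set_option autoImplicit false

namespace Pool.Agent.Work.MP_7107b3_al.SE

theorem end_EX : StEX := se_EX (se_TR se_OD)
theorem end_CO : StCO := se_CO (se_CN se_FD se_IV se_LA) se_DSb se_BDb se_DZ
theorem main1 : StG1 := se_G1 end_CO end_EX se_PB
theorem main2 : StG2 := se_G2 end_CO end_EX se_PB

end Pool.Agent.Work.MP_7107b3_al.SE
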