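import Mathlib

/-!
# MP_7107b3_al, block SE (idea helper37, captain helper15): one side a Seifert piece over the disc, the other side arbitrary

`A = <x_1, .., x_k, h | h central, x_i ^ p_i = h ^ q_i>`, `c = x_1 .. x_k`, `C = <c, h>`, `B` any group, `G = A *_C B`.
`G` maps onto `Orb p n m = <x_1, .., x_k, t | x_i ^ p_i, t ^ n, x_1 .. x_k = t ^ m>`. The finite quotients of that group in which the
orders are exact come from `PGL_2`; a count of derivations into `ℚ[F]` shows that it is virtually onto `ℤ`.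
Item `XX`: file `SE/I_XX.lean`, theorem `se_XX`, aux lemmas in namespace `ISE_XX`.
-/

set_option autoImplicit false

namespace Pool.Agent.Work.MP_7107b3_al.SE

open FreeGroup

/-- Some subgroup of finite index maps onto the integers. -/
def VirtZ (G : Type) [Group G] : Prop :=
  ∃ H : Subgroup G, H.FiniteIndex ∧ ∃ f : H →* Multiplicative ℤ, Function.Surjective f

/-- The relators of the Seifert piece; `some i` is `x_i`, `none` is `h`. -/
def seifRels {k : ℕ} (p : Fin k → ℕ) (q : Fin k → ℤ) : Set (FreeGroup (Option (Fin k))) :=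
  {r | ∃ i, r = of none * of (some i) * (of none)⁻¹ * (of (some i))⁻¹} ∪
  {r | ∃ i, r = of (some i) ^ p i * (of none ^ q i)⁻¹}

/-- The Seifert piece. -/
abbrev Seif {k : ℕ} (p : Fin k → ℕ) (q : Fin k → ℤ) : Type := PresentedGroup (seifRels p q)

/-- The fibre `h`. -/
def fib {k : ℕ} (p : Fin k → ℕ) (q : Fin k → ℤ) : Seif p q := PresentedGroup.of none

/-- The section `c = x_1 .. x_k`. -/
def sec {k : ℕ} (p : Fin k → ℕ) (q : Fin k → ℤ) : Seif p q :=
  (List.ofFn fun i : Fin k => (PresentedGroup.of (some i) : Seif p q)).prod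

/-- The relators of the target; `some i` is `x_i`, `none` is `t`. -/
def orbRels {k : ℕ} (p : Fin k → ℕ) (n : ℕ) (m : ℤ) : Set (FreeGroup (Option (Fin k))) :=
  {r | (∃ i, r = of (some i) ^ p i) ∨ r = of none ^ n ∨
    r = (List.ofFn fun i : Fin k => (of (some i) : FreeGroup (Option (Fin k)))).prod * (of none ^ m)⁻¹}

/-- The target group. -/
abbrev Orb {k : ℕ} (p : Fin k → ℕ) (n : ℕ) (m : ℤ) : Type := PresentedGroup (orbRels p n m)

/-- A finite group in which the orders are exact. -/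
def Qt {k : ℕ} (p : Fin k → ℕ) (n : ℕ) (m : ℤ) : Prop :=
  ∃ (F : Type) (_ : Group F) (_ : Finite F) (x : Fin k → F) (t : F),
    (∀ i, orderOf (x i) = p i) ∧ orderOf t = n ∧ (List.ofFn x).prod = t ^ m

/-- Translation of functions. -/
def act {F : Type} [Group F] (g : F) (v : F → ℚ) : F → ℚ := fun y => v (g⁻¹ * y)

/-- Derivations. -/
def IsDer {Γ F : Type} [Group Γ] [Group F] (ρ : Γ →* F) (D : Γ → F → ℚ) : Prop :=
  ∀ g h : Γ, D (g * h) = D g + act (ρ g) (D h)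

/-! ## Items -/

/-- [PB] (EASY) pull back of `VirtZ`: `H.comap π`, `Subgroup.finiteIndex` of a comap, restrict `f` (`Subgroup.subgroupComap`). -/
def StPB : Prop := ∀ (G Γ : Type) [Group G] [Group Γ] (π : G →* Γ), Function.Surjective π → VirtZ Γ → VirtZ G

/-- [OD] (EASY-MEDIUM) PROOF. `X ^ j = α_j X + β_j` with `α_j (ξ - 1) = u ^ (j - 1) (ξ ^ j - 1)` (induction on `j`; say
`(ξ - 1) • X ^ j = (u ^ (j-1) * (ξ ^ j - 1)) • X - ..`; or diagonalise: with `Y = u⁻¹ X`, `Y ^ 2 = (1 + ξ) Y - ξ`,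
`(ξ - 1) Y ^ j = (ξ ^ j - 1) Y + (ξ - ξ ^ j)`). If `ξ ^ j = 1` then `X ^ j` is scalar, so `conj (X ^ j) = 1`. If
`conj (X ^ j) = 1` then `X ^ j` commutes with `!![1,1;0,1]` and `!![1,0;1,1]`, so if `ξ ^ j ≠ 1` then `X` commutes with both,
so `X 0 1 = 0`, `X 1 0 = 0`, `X 0 0 = X 1 1`: excluded by `hX`. -/
def StOD : Prop := ∀ (K : Type) [Field K] (X : (Matrix (Fin 2) (Fin 2) K)ˣ) (ξ u : K), ξ ≠ 1 → u ≠ 0 →
  ((X : Matrix (Fin 2) (Fin 2) K) ^ 2 = ((1 + ξ) * u) • (X : Matrix (Fin 2) (Fin 2) K) - (ξ * u ^ 2) • 1) →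
  ((X : Matrix (Fin 2) (Fin 2) K) 0 1 ≠ 0 ∨ (X : Matrix (Fin 2) (Fin 2) K) 0 0 ≠ (X : Matrix (Fin 2) (Fin 2) K) 1 1) →
  orderOf (MulAut.conj X) = orderOf ξ

/-- [TR] (MEDIUM, hyp StOD) the triple lemma. PROOF. `ℓ` prime with `ℓ ≡ 1` modulo `2 p q n` (`Nat.exists_prime_gt_modEq_one`),
`K = ZMod ℓ`; the units of `K` are cyclic of order `ℓ - 1`, so there are `ξ, η, θ` of orders `p, q, n`, which are squares
(of elements of orders `2 p, 2 q, 2 n`). `τ = θ ^ m ≠ 1`, `ω ^ 2 = ξ τ / η`, `s = ω (1 + η)`, `d = (s - 1 - ξ) / (τ - 1)`, `a = 1 + ξ - d`,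
`X = !![a, 1; a d - ξ, d]`, `T = !![θ, 0; 0, 1]`, `Y = X⁻¹ T ^ m`. `X` has trace `1 + ξ` and determinant `ξ` (StOD with `u = 1`); `Y` has
trace `s / ξ`, determinant `τ / ξ` and `Y 0 1 = - 1 / ξ` (StOD for `η`, `u = ω / ξ`); `T`: StOD for `θ`, `u = 1` (if `n = 1` the hypothesis is
empty as `1 ∣ m`). `F = MulAut (GL_2 K)` (finite), the images under `MulAut.conj`. -/
def StTR : Prop := ∀ (p q n : ℕ) (m : ℤ), 2 ≤ p → 2 ≤ q → 1 ≤ n → ¬ (n : ℤ) ∣ m →
  ∃ (F : Type) (_ : Group F) (_ : Finite F) (x y t : F),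
    orderOf x = p ∧ orderOf y = q ∧ orderOf t = n ∧ x * y = t ^ m

/-- [EX] (MEDIUM, hyp StTR) PROOF. For `i : Fin k` choose `j ≠ i` and take `F_i` from StTR for the smaller and the larger one of `i, j`. `F` is the
product of the `F_i` (`∀ i, F i`); the component `i` of `x l` is `x`, `y` or `1`. Orders in a product: `x l ^ a = 1` iff all components are.
The product of the list has the component `x y` (all the other factors are `1`). -/
def StEX : Prop := ∀ (k : ℕ) (p : Fin k → ℕ) (n : ℕ) (m : ℤ), 2 ≤ k → (∀ i, 2 ≤ p i) → 1 ≤ n → ¬ (n : ℤ) ∣ m →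
  Qt p n m

/-- [DZ] (MEDIUM) a derivation which is not inner gives `VirtZ`. PROOF. `N = ρ.ker` has finite index. If `D` vanishes on `N` then it
is inner: choose `s y` in `Γ` with `ρ (s y) = y` for `y` in the range `R` of `ρ`, `S = ∑ y, D (s y)`: `D (g * s y) = D (s (ρ g * y))`, so
`|R| D g = S - act (ρ g) S`, and `v = - S / |R|`. So some `a` in `N` and `y` have `D a y ≠ 0`. On `N` the map `D · y` is additive, and
`b * D · y` is integer valued: a homomorphism `N →* Multiplicative ℤ` which is not trivial; its range is generated by some `c ≠ 0`;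
divide by `c` (or compose with an isomorphism of the range, which is infinite cyclic, with `ℤ`). -/
def StDZ : Prop := ∀ (Γ F : Type) [Group Γ] [Group F] [Finite F] (ρ : Γ →* F) (D : Γ → F → ℚ) (b : ℕ),
  IsDer ρ D → (∀ v : F → ℚ, ∃ g, D g ≠ act (ρ g) v - v) → 0 < b → (∀ g y, ∃ z : ℤ, (b : ℚ) * D g y = z) → VirtZ Γ

/-- [FD] (EASY-MEDIUM) free derivations, depending linearly on the values at the generators. PROOF. `FreeGroup.lift` into the semidirect
product of the additive group of the linear maps `(X → F → ℚ) →ₗ[ℚ] (F → ℚ)` by `F` (or the group of the pairs with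
`(L, g) * (L', g') = (L + act g ∘ L', g * g')`, or `FreeGroup.lift` into the permutations of `((X → F → ℚ) → F → ℚ) × F`). -/
def StFD : Prop := ∀ (X F : Type) [Group F] (ρ : FreeGroup X →* F),
  ∃ L : FreeGroup X → ((X → F → ℚ) →ₗ[ℚ] (F → ℚ)),
    (∀ d, IsDer ρ (fun g => L g d)) ∧ ∀ x d, L (of x) d = d x

/-- [DS] (EASY-MEDIUM) descent to a presented group. PROOF. `D (g * r * g⁻¹) = 0` if `D r = 0`, `ρ r = 1`; so `D` vanishes on the normal closure
(`Subgroup.normalClosure`, induction on the closure of the conjugates) and `D (g * r) = D g`. -/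
def StDS : Prop := ∀ (X F : Type) [Group F] (R : Set (FreeGroup X)) (ρ : PresentedGroup R →* F) (D : FreeGroup X → F → ℚ),
  IsDer (ρ.comp (PresentedGroup.mk R)) D → (∀ r ∈ R, D r = 0) →
  ∃ D' : PresentedGroup R → F → ℚ, IsDer ρ D' ∧ ∀ g, D' (PresentedGroup.mk R g) = D g

/-- [BD] (EASY) integrality. `FreeGroup.induction_on` (`D 1 = 0`, `D g⁻¹ = - act (ρ g)⁻¹ (D g)`). -/
def StBD : Prop := ∀ (X F : Type) [Group F] (ρ : FreeGroup X →* F) (D : FreeGroup X → F → ℚ) (b : ℕ), IsDer ρ D →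
  (∀ x y, ∃ z : ℤ, (b : ℚ) * D (of x) y = z) → ∀ g y, ∃ z : ℤ, (b : ℚ) * D g y = z

/-- [IV] (EASY-MEDIUM) the value of a derivation at `g ^ a`, `ρ (g) ^ a = 1`, is invariant, and the invariants are few. PROOF.
`D (g ^ a) = ∑ j < a, act (ρ g ^ j) (D g)`, `g * g ^ a = g ^ a * g`. The functions with `act g v = v` are the functions on the right cosets
of `zpowers g`: dimension `|F| / orderOf g` (for instance: `card F = orderOf g * card (F ⧸ ..)`, the invariants embed into the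
functions on the quotient by `v ↦ fun q => v (q.out)`; any proof of `≤` is fine). -/
def StIV : Prop := ∀ (F : Type) [Group F] [Finite F] (g : F),
  ∃ W : Submodule ℚ (F → ℚ), (∀ v, v ∈ W ↔ act g v = v) ∧ orderOf g * Module.finrank ℚ W ≤ Nat.card F

/-- [LA] (EASY-MEDIUM) linear algebra. PROOF. `∏ W_j` has dimension `∑ dim W_j`; the kernel `S` of `V → ∏ W_j` has dimension at least
`dim V - ∑ dim W_j`, and the range of `f` at most `dim U - 1`. -/
def StLA : Prop := ∀ (U V M J : Type) [AddCommGroup U] [AddCommGroup V] [AddCommGroup M] [Module ℚ U] [Module ℚ V] [Module ℚ M]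
  [FiniteDimensional ℚ U] [FiniteDimensional ℚ V] [FiniteDimensional ℚ M] [Fintype J] (W : J → Submodule ℚ M)
  (T : J → V →ₗ[ℚ] M) (f : U →ₗ[ℚ] V) (u₀ : U), (∀ j v, T j v ∈ W j) → u₀ ≠ 0 → f u₀ = 0 →
  Module.finrank ℚ U + ∑ j, Module.finrank ℚ (W j) ≤ Module.finrank ℚ V →
  ∃ v : V, (∀ j, T j v = 0) ∧ ∀ u : U, f u ≠ v

/-- [CN] (MEDIUM, hyp StFD, StIV, StLA) the count. PROOF. `V = Option (Fin k) → F → ℚ` (dimension `(k + 1) |F|`), `U = M = F → ℚ`,
`J = Option (Option (Fin k))`: `T (some (some i)) d = L (x_i ^ p_i) d` in the invariants of `x i` (dimension `≤ |F| / p_i`), `T (some none) d = L (t ^ n) d`,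
`T none d = L (x_1 .. x_k t ^ (-m)) d` (in `⊤`), `f v = fun g => act (ρ (of g)) v - v`, `u₀ = 1`. The inequality times `|F|` is
`|F| + ∑ |F| / p_i + |F| / n + |F| ≤ (k + 1) |F|`. Then scale `d` to clear nothing: only finitely many values, so a common
denominator `b` exists. -/
def StCN : Prop := ∀ (k : ℕ) (p : Fin k → ℕ) (n : ℕ) (m : ℤ) (F : Type) [Group F] [Finite F] (x : Fin k → F) (t : F),
  (∀ i, 1 ≤ p i) → 1 ≤ n → (∀ i, orderOf (x i) = p i) → orderOf t = n → (List.ofFn x).prod = t ^ m →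
  (2 : ℚ) ≤ ∑ i, (1 - 1 / (p i : ℚ)) + (1 - 1 / (n : ℚ)) →
  ∃ (D : FreeGroup (Option (Fin k)) → F → ℚ) (b : ℕ),
    IsDer (FreeGroup.lift (fun o : Option (Fin k) => o.elim t x)) D ∧ (∀ r ∈ orbRels p n m, D r = 0) ∧ 0 < b ∧
    (∀ o y, ∃ z : ℤ, (b : ℚ) * D (of o) y = z) ∧
    ∀ v : F → ℚ, ∃ o, D (of o) ≠ act (o.elim t x) v - v

/-- [CO] (EASY-MEDIUM, hyp StCN, StDS, StBD, StDZ) the core. -/
def StCO : Prop := ∀ (k : ℕ) (p : Fin k → ℕ) (n : ℕ) (m : ℤ), (∀ i, 1 ≤ p i) → 1 ≤ n → Qt p n m →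
  (2 : ℚ) ≤ ∑ i, (1 - 1 / (p i : ℚ)) + (1 - 1 / (n : ℚ)) → VirtZ (Orb p n m)

/-- [A1] (EASY-MEDIUM, hyp StCO, StEX, StPB) first case: the other side goes to `1`. PROOF. Each term of the sum is less than `1`, so
`k = k' + 1`, `2 ≤ k'`; map to `Orb (fun i : Fin k' => p i.castSucc) (p (Fin.last k')) (-1)` by `x_i ↦ x_i`, `x_last ↦ t`, `h ↦ 1`
(`List.ofFn_succ'`, `List.concat`), everything in `K false` to `1` (`Monoid.PushoutI.lift`; `C` is generated by `u, v`). -/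
def StA1 : Prop := ∀ (C : Type) [Group C] (K : Bool → Type) [∀ b, Group (K b)] (φ : ∀ b, C →* K b) (k : ℕ)
  (p : Fin k → ℕ) (q : Fin k → ℤ) (e : K true ≃* Seif p q) (u v : C), (∀ i, 2 ≤ p i) →
  Subgroup.closure {u, v} = ⊤ → e (φ true u) = fib p q → e (φ true v) = sec p q →
  (2 : ℚ) ≤ ∑ i, (1 - 1 / (p i : ℚ)) → VirtZ (Monoid.PushoutI φ)

/-- [A2] (MEDIUM, hyp StCO, StEX, StPB) second case. PROOF. `n = f(u)`, `m = f(v)` (integers). If `n ≠ 0` map to `Orb p |n| m`, if `n = 0` to `Orb p N m`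
with `N` large (`N > |m|`, `1 / N ≤ ∑ (1 - 1 / p_i) - 1`): `x_i ↦ x_i`, `h ↦ 1`, `K false → ℤ → <t>` (`zpowersHom`). Onto because `f` is. -/
def StA2 : Prop := ∀ (C : Type) [Group C] (K : Bool → Type) [∀ b, Group (K b)] (φ : ∀ b, C →* K b) (k : ℕ)
  (p : Fin k → ℕ) (q : Fin k → ℤ) (e : K true ≃* Seif p q) (u v : C) (f : K false →* Multiplicative ℤ), 2 ≤ k → (∀ i, 2 ≤ p i) →
  Subgroup.closure {u, v} = ⊤ → e (φ true u) = fib p q → e (φ true v) = sec p q → Function.Surjective f →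
  ¬ Multiplicative.toAdd (f (φ false u)) ∣ Multiplicative.toAdd (f (φ false v)) →
  (Multiplicative.toAdd (f (φ false u)) = 0 → (1 : ℚ) < ∑ i, (1 - 1 / (p i : ℚ))) →
  (Multiplicative.toAdd (f (φ false u)) ≠ 0 →
    (2 : ℚ) ≤ ∑ i, (1 - 1 / (p i : ℚ)) + (1 - 1 / |((Multiplicative.toAdd (f (φ false u)) : ℤ) : ℚ)|)) →
  VirtZ (Monoid.PushoutI φ)

end Pool.Agent.Work.MP_7107b3_al.SE
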